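import Pool.Agent.P.MP_1157dd_an.N.Ent3
import Pool.Agent.P.MP_1157dd_an.N.Norms
import Pool.Agent.P.MP_1157dd_an.N.Rand
import Pool.Agent.P.MP_1157dd_an.N.Split
import Pool.Agent.P.MP_1157dd_an.N.FinB

/-! Working definitions and statements of the steps, full colourings from `S_p` to `S_q`. -/

namespace Pool.Agent.P.MP_1157dd_an.K

open Matrix Filter Topology N
open scoped ENNReal

theorem hLP : S_LP := p_LP
theorem hSV : S_SV := p_SV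
theorem hSCH : S_SCH := p_SCH p_LP (p_JEN p_LP) p_SV
theorem hVAR : S_VAR := p_VAR p_LP (p_JEN p_LP) p_SV hSCH
theorem hCNT : S_CNT := p_CNT p_SV
theorem hLAY : S_LAY := p_LAY p_LP
theorem hENTS : S_ENTS := p_ENTS p_LP p_SV hCNT hLAY p_ENT
theorem hSPLIT : S_SPLIT := p_SPLIT p_LP p_SV hSCH hVAR
theorem hROUNDS : S_ROUNDS := p_ROUNDS
theorem hFD : S_FD :=
  p_FD p_LP hSCH hVAR hENTS (p_NCKS p_LP (p_JEN p_LP) p_SV p_NCK) p_LEVY p_CHAIN p_ROUNDS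

section defs

variable {D I J L K : Type} [Fintype D] [Fintype I] [Fintype J] [Fintype L] [Fintype K]

/-- weighted completely positive map -/
def TW (b : L → Matrix D D ℝ) (g : L → ℝ) (U : Matrix D D ℝ) : Matrix D D ℝ :=
  ∑ l, g l • (b l * U * b l)

/-- the family attached to the columns of `Γ` -/
def cols (A : I → Matrix D D ℝ) (Γ : Matrix I L ℝ) (l : L) : Matrix D D ℝ := lc A fun i => Γ i l

/-- the size of the reservoir of a coordinate -/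
noncomputable def sq1 (x : I → ℝ) (j : I) : ℝ := √(1 - x j ^ 2)

/-- the weights -/
noncomputable def wf (J : Type) (x : I → ℝ) : I ⊕ J → ℝ := Sum.elim (sq1 x) fun _ => 1

/-- the columns of the reservoir -/
def th [DecidableEq I] (C : Matrix J I ℝ) (M : Matrix I J ℝ) : Matrix I (I ⊕ J) ℝ :=
  fromCols (1 - M * C) M

/-- the covariance factor -/
noncomputable def gam [DecidableEq I] (C : Matrix J I ℝ) (M : Matrix I J ℝ) (x : I → ℝ) :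
    Matrix I (I ⊕ J) ℝ := Matrix.of fun i l => th C M i l * √(wf J x l)

/-- `M` realises the parallel sum of `diagonal w` and the inverse of the Gram matrix of `C` -/
def Par [DecidableEq I] (C : Matrix J I ℝ) (w : I → ℝ) (M : Matrix I J ℝ) : Prop :=
  (1 - M * C) * (1 + diagonal w * (Cᵀ * C)) = 1 ∧ ∀ (a : I → ℝ) (m : J → ℝ),
    ∑ j, w j * ((1 - M * C)ᵀ *ᵥ a) j ^ 2 + ∑ l, (Mᵀ *ᵥ a) l ^ 2 ≤
      ∑ j, w j * (a - Cᵀ *ᵥ m) j ^ 2 + ∑ l, m l ^ 2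

/-- local optimality in normalised coordinates -/
def LocK [DecidableEq D] (B : K → I → Matrix D D ℝ) (b : K → L → Matrix D D ℝ) (ζ : K → D → ℝ)
    (x : I → ℝ) (w : (I → ℝ) → L → ℝ) (p : ℕ) (c s Λ lam : ℝ) : Prop :=
  ∀ (y : I → ℝ) (s' : ℝ) (g' : L → ℝ) (E : K → Matrix D D ℝ), Cube (x + y) → 0 ≤ s' → s' ≤ 1 →
    (∀ l, c * s' * w (x + y) l ≤ g' l) → (∀ k, (E k)ᵀ = E k) →
    (∀ k u, 0 ≤ qf ((1 / 2 : ℝ) • 1 + E k) u) →
    (∀ k u, 0 ≤ qf (TW (b k) (fun l => c * s * w x l) 1 - TW (b k) g' (1 + E k) -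
      lc (B k) y + iv (E k)) u) →
    0 ≤ ∑ k, (((diagonal (ζ k) * (1 + E k)) ^ p).trace - (diagonal (ζ k) ^ p).trace) -
      Λ * (s' - s) - lam * (∑ i, (x i + y i) ^ 2 - ∑ i, x i ^ 2)

lemma sq1_nonneg (x : I → ℝ) (j : I) : 0 ≤ sq1 x j := Real.sqrt_nonneg _

lemma sq1_le (x : I → ℝ) (j : I) : sq1 x j ≤ 1 :=
  Real.sqrt_le_one.2 (by linarith [sq_nonneg (x j)])

lemma wf_nonneg (x : I → ℝ) (l : I ⊕ J) : 0 ≤ wf J x l := by
  rcases l with j | l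
  exacts [sq1_nonneg x j, zero_le_one]

lemma gam_dot [DecidableEq I] (C : Matrix J I ℝ) (M : Matrix I J ℝ) (x a : I → ℝ) :
    (gam C M x)ᵀ *ᵥ a ⬝ᵥ (gam C M x)ᵀ *ᵥ a =
      ∑ j, sq1 x j * ((1 - M * C)ᵀ *ᵥ a) j ^ 2 + ∑ l, (Mᵀ *ᵥ a) l ^ 2 := by
  have e : ∀ l, ((gam C M x)ᵀ *ᵥ a) l ^ 2 = wf J x l * ((th C M)ᵀ *ᵥ a) l ^ 2 := fun l => by
    have : ((gam C M x)ᵀ *ᵥ a) l = √(wf J x l) * ((th C M)ᵀ *ᵥ a) l := by
      simp only [mulVec, dotProduct, transpose_apply, gam, of_apply, Finset.mul_sum]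
      exact Finset.sum_congr rfl fun i _ => by ring
    rw [this, mul_pow, Real.sq_sqrt (wf_nonneg x l)]
  simp only [dot_eq_sq, e, Fintype.sum_sum_type, wf, Sum.elim_inl, Sum.elim_inr, one_mul]
  rfl

/-- consequences of `Par` for the covariance factor -/
lemma Par.gam [DecidableEq I] {C : Matrix J I ℝ} {M : Matrix I J ℝ} {x : I → ℝ}
    (h : Par C (sq1 x) M) :
    (∀ a, (gam C M x)ᵀ *ᵥ a ⬝ᵥ (gam C M x)ᵀ *ᵥ a ≤ a ⬝ᵥ a) ∧
    (∀ m, (gam C M x)ᵀ *ᵥ Cᵀ *ᵥ m ⬝ᵥ (gam C M x)ᵀ *ᵥ Cᵀ *ᵥ m ≤ m ⬝ᵥ m) ∧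
    (∀ M' a, (gam C M x)ᵀ *ᵥ a ⬝ᵥ (gam C M x)ᵀ *ᵥ a ≤
      (gam C M' x)ᵀ *ᵥ a ⬝ᵥ (gam C M' x)ᵀ *ᵥ a) ∧
    (∀ i, ∑ l, M i l ^ 2 ≤ sq1 x i) ∧ ∀ i l, |M i l| ≤ 1 := by
  have h4 : ∀ i, ∑ l, M i l ^ 2 ≤ sq1 x i := fun i => by
    have := h.2 (Pi.single i 1) 0
    have a1 : 0 ≤ ∑ j, sq1 x j * ((1 - M * C)ᵀ *ᵥ Pi.single i 1) j ^ 2 :=
      Finset.sum_nonneg fun j _ => mul_nonneg (sq1_nonneg x j) (sq_nonneg _)
    have a2 : ∑ j, sq1 x j * (Pi.single i 1 - Cᵀ *ᵥ (0 : J → ℝ) : I → ℝ) j ^ 2 = sq1 x i := by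
      rw [Finset.sum_eq_single i (fun j _ hj => by simp [hj]) (by simp)]
      simp
    simp only [mulVec_single_one, col_apply, transpose_apply, Pi.zero_apply] at this a1 a2
    simp only [ne_eq, OfNat.ofNat_ne_zero, not_false_eq_true, zero_pow, Finset.sum_const_zero]
      at this
    linarith
  refine ⟨fun a => ?_, fun m => ?_, fun M' a => ?_, h4, fun i l => ?_⟩
  · have := h.2 a 0
    rw [gam_dot, dot_eq_sq]
    simp only [mulVec_zero, sub_zero, Pi.zero_apply, ne_eq, OfNat.ofNat_ne_zero,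
      not_false_eq_true, zero_pow, Finset.sum_const_zero, add_zero] at this
    exact this.trans (Finset.sum_le_sum fun j _ => mul_le_of_le_one_left (sq_nonneg _) (sq1_le x j))
  · have := h.2 (Cᵀ *ᵥ m) m
    rw [gam_dot, dot_eq_sq]
    simpa using this
  · have := h.2 a (M'ᵀ *ᵥ a)
    rw [gam_dot, gam_dot]
    rwa [mulVec_mulVec, ← transpose_mul, show a - (M' * C)ᵀ *ᵥ a = (1 - M' * C)ᵀ *ᵥ a by
      rw [transpose_sub, transpose_one, sub_mulVec, one_mulVec]] at this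
  · rw [← sq_le_one_iff_abs_le_one]
    exact ((Finset.single_le_sum (f := fun l => M i l ^ 2) (fun _ _ => sq_nonneg _)
      (Finset.mem_univ l)).trans (h4 i)).trans (sq1_le x i)

end defs

-- deps:
def S_PAR : Prop :=
  ∀ (I J : Type) [Fintype I] [DecidableEq I] [Fintype J] (C : Matrix J I ℝ) (w : I → ℝ),
    (∀ j, 0 ≤ w j) → ∃ M, Par C w M

-- deps:
def S_DET : Prop :=
  ∀ (I J : Type) [Fintype I] [DecidableEq I] [Fintype J] (C : Matrix J I ℝ) (H : Matrix I I ℝ)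
    (w Δ : I → ℝ) (S : Finset I) (Ξ R : ℝ), (∀ j, 0 ≤ w j) → (∀ j, w j ≤ 1) →
    (∀ j, j ∉ S → w j = 0) → (∀ j, ∑ l, C l j ^ 2 ≤ 1) → Hᵀ = H → (∀ y, 0 ≤ qf H y) →
    (∀ j, 0 < Δ j) → (∀ j, H j j ≤ Δ j) → 1 ≤ Ξ → 4 + Real.log Ξ ≤ R →
    (∀ y, ∑ j, Δ j * y j ^ 2 ≤ Ξ * ∑ j, Δ j * ((1 + diagonal w * (Cᵀ * C)) *ᵥ y) j ^ 2) →
    ∃ N : Submodule ℝ (I → ℝ), Cod N (S.card - S.card / R) ∧ ∀ y ∈ N, (∀ j, j ∉ S → y j = 0) →
      qf H ((1 + diagonal w * (Cᵀ * C)) *ᵥ y) ≤ 55 * ∑ j, Δ j * y j ^ 2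

-- deps:
def S_SQ : Prop :=
  ∀ x y : ℝ, |x| < 1 → ∀ᶠ t in 𝓝 (0 : ℝ), √(1 - (x + t * y) ^ 2) ≤
    √(1 - x ^ 2) - t * (x * y / √(1 - x ^ 2)) - t ^ 2 * (y ^ 2 / (4 * √(1 - x ^ 2) ^ 3))

-- deps:
def S_CORE : Prop :=
  ∀ (D I L K : Type) [Fintype D] [DecidableEq D] [Fintype I] [DecidableEq I] [Fintype L]
    [DecidableEq L] [Fintype K] (B : K → I → Matrix D D ℝ) (b : K → L → Matrix D D ℝ)
    (ζ : K → D → ℝ) (x : I → ℝ) (w : (I → ℝ) → L → ℝ) (p : ℕ) (c s Λ lam ω : ℝ)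
    (α : Matrix I L ℝ), LocK B b ζ x w p c s Λ lam → (∀ k i, (B k i)ᵀ = B k i) →
    (∀ k l, (b k l)ᵀ = b k l) → 1 ≤ p → 0 ≤ c → 0 ≤ s → s ≤ 1 → 0 ≤ Λ → 0 ≤ ω → Cube x →
    (∀ l, 0 ≤ w x l) → (∀ k e, 1 ≤ 2 * ζ k e) →
    (∀ k r, frob (lc (fun l => √(c * s * w x l) • b k l) r) ≤ ω * (r ⬝ᵥ r)) →
    ∃ G : K → Matrix D D ℝ, ∑ l, c * s * w x l * ∑ k, frob (G k * b k l) ≤ Λ ∧
      ∃ N, Cod N (4 * 2 ^ p * ω * Λ) ∧ ∀ y ∈ N, ∀ β : L → ℝ, (∀ l, 0 ≤ β l) →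
        (∀ l, (y ᵥ* α) l ^ 2 ≤ 4 * (c * s * w x l) * β l) →
        (∀ᶠ t in 𝓝 (0 : ℝ), Cube (x + t • y) ∧ ∀ l, c * s * w (x + t • y) l ≤
          c * s * w x l - t * (y ᵥ* α) l - t ^ 2 * β l) →
        lam * (y ⬝ᵥ y) + ∑ l, β l * (∑ k, frob (G k * b k l)) / 2 ≤
          12 * p * ∑ k, frob (G k * (lc (B k) y - TW (b k) (y ᵥ* α) 1))

-- deps: PAR
def S_OPT : Prop :=
  ∀ (D I J K : Type) [Fintype D] [DecidableEq D] [Fintype I] [DecidableEq I] [Fintype J]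
    [Fintype K] (A : K → I → Matrix D D ℝ) (C : Matrix J I ℝ) (x₀ : I → ℝ) (M₀ : Matrix I J ℝ)
    (p : ℕ) (c E lam : ℝ), (∀ k, Bal (A k)) → Cube x₀ → (∀ i l, |M₀ i l| ≤ 1) → 1 ≤ p → 0 ≤ c →
    (∀ k u, c * vr (cols (A k) (gam C M₀ x₀)) u ≤ 1 / 4 * (u ⬝ᵥ u)) →
    (2 : ℝ) ^ p * (Fintype.card K * Fintype.card D) ≤ E → 0 < E → 0 ≤ lam →
    lam * Fintype.card I ≤ E →
    ∃ (x : I → ℝ) (M : Matrix I J ℝ) (s : ℝ) (Y : K → Matrix D D ℝ) (ζ : K → D → ℝ),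
      Cube x ∧ Par C (sq1 x) M ∧ 1 / 2 ≤ s ∧ s ≤ 1 ∧
      (∀ k u, qf (lc (A k) (x - x₀)) u ≤ u ⬝ᵥ u) ∧ (∀ k, (Y k)ᵀ * Y k = diagonal (ζ k)) ∧
      (∀ k e, 1 ≤ 2 * ζ k e) ∧ (∀ k e, ζ k e ^ p ≤ 2 * E) ∧
      LocK (fun k i => (Y k)ᵀ * A k i * Y k)
        (fun k => cols (fun i => (Y k)ᵀ * A k i * Y k) (th C M)) ζ x (wf J) p c s (4 * E) lam

-- deps: DET SQ CORE OPT
def S_KOM : Prop :=
  ∀ (D I J K : Type) [Fintype D] [DecidableEq D] [Fintype I] [DecidableEq I] [Fintype J]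
    [Fintype K] (A : K → I → Matrix D D ℝ) (σ : K → ℝ) (C : Matrix J I ℝ) (x₀ : I → ℝ)
    (M₀ : Matrix I J ℝ) (κ θ ω R t : ℝ), (∀ k, 0 < σ k) → (∀ j, ∑ l, C l j ^ 2 ≤ 1) → Cube x₀ →
    (∀ i l, |M₀ i l| ≤ 1) → (∀ k, Var (cols (A k) (gam C M₀ x₀)) (σ k)) → 0 ≤ ω →
    (∀ k y, frob (lc (A k) y) ≤ ω * σ k ^ 2 * (C *ᵥ y ⬝ᵥ C *ᵥ y)) →
    (2 : ℝ) * (Fintype.card K * Fintype.card D) ≤ κ → 1 ≤ κ → 0 ≤ θ → 2 ^ 17 * κ ≤ θ ^ 16 →
    4 + Real.log (3 * (Fintype.card I + 1) ^ 2) ≤ R → 2 ^ 15 * R * θ ^ 2 * ω ≤ 1 →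
    2 ^ 37 * R * θ ^ 2 * ω * κ ≤ t →
    ∃ x, Cube x ∧ ((free x).card : ℝ) ≤ t ∧ ∀ k, OpLe (lc (A k) (x - x₀)) (2 ^ 11 * σ k)

-- deps:
def S_LAY2 : Prop :=
  ∀ (d : ℕ) (q : ℝ≥0∞) (f g h : Fin d → ℝ) (a T : ℝ) (S : ℕ), 1 ≤ q → 0 < a → 0 < T →
    lpn q (fun _ : Fin d => (1 : ℝ)) ≤ 2 ^ S → (∀ j, 0 ≤ f j) → (∀ j, 0 ≤ g j) → (∀ j, 0 ≤ h j) →
    lpn q g ≤ T → lpn q h ≤ T →
    (∀ s ≤ S, (Finset.univ.filter fun j => a * (T / 2 ^ s) < f j).card ≤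
      (Finset.univ.filter fun j => T / 2 ^ s < g j).card +
        (Finset.univ.filter fun j => T / 2 ^ s < h j).card) →
    lpn q f ≤ 11 * a * T

-- deps: PAR KOM LAY2
def S_KOMS : Prop :=
  ∀ (d : ℕ) (I J : Type) [Fintype I] [DecidableEq I] [Fintype J]
    (A : I → Matrix (Fin d) (Fin d) ℝ) (C : Matrix J I ℝ) (x₀ : I → ℝ) (q : ℝ≥0∞) (T v u : ℝ)
    (S : ℕ), 1 ≤ q → 0 < T → 2 ^ 60 ≤ u → (d : ℝ) ≤ u ^ 16 → (Fintype.card I : ℝ) ≤ u ^ 32 →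
    (S + 1 : ℝ) ≤ 26 * u → lpn q (fun _ : Fin d => (1 : ℝ)) ≤ 2 ^ S →
    (∀ j, ∑ l, C l j ^ 2 ≤ 1) → Cube x₀ → (∀ y, frob (lc A y) ≤ v * (C *ᵥ y ⬝ᵥ C *ᵥ y)) →
    v * 4 ^ S * u ^ 8 ≤ 8 * T ^ 2 →
    (∀ Γ : Matrix I (I ⊕ J) ℝ, (∀ a, Γᵀ *ᵥ a ⬝ᵥ Γᵀ *ᵥ a ≤ a ⬝ᵥ a) →
      (∀ m, Γᵀ *ᵥ Cᵀ *ᵥ m ⬝ᵥ Γᵀ *ᵥ Cᵀ *ᵥ m ≤ m ⬝ᵥ m) → SVar q (cols A Γ) T) →
    ∃ x, Cube x ∧ ((free x).card : ℝ) ≤ u ^ 15 ∧ schatten q (lc A (x - x₀)) ≤ 2 ^ 15 * T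

-- deps:
def S_SPL2 : Prop :=
  ∀ (d : ℕ) (I : Type) [Fintype I] [DecidableEq I] (A : I → Matrix (Fin d) (Fin d) ℝ)
    (p q : ℝ≥0∞), 2 ≤ p → p ≤ q → p ≠ ∞ → 0 < d → d ≤ Fintype.card I →
    (∀ i, schatten p (A i) ≤ 1) →
    ∃ C : Matrix ((Fin d × Fin d) ⊕ (Fin d × Fin d)) I ℝ, (∀ j, ∑ l, C l j ^ 2 ≤ 1) ∧
      (∀ y, frob (lc A y) ≤ 8 * (d : ℝ) ^ (1 - 2 * p.toReal⁻¹) * (C *ᵥ y ⬝ᵥ C *ᵥ y)) ∧
      ∀ (L : Type) [Fintype L] (Γ : Matrix I L ℝ), (∀ a, Γᵀ *ᵥ a ⬝ᵥ Γᵀ *ᵥ a ≤ a ⬝ᵥ a) →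
        (∀ m, Γᵀ *ᵥ Cᵀ *ᵥ m ⬝ᵥ Γᵀ *ᵥ Cᵀ *ᵥ m ≤ m ⬝ᵥ m) →
        SVar q (cols A Γ) (3 * √(Fintype.card I) *
          ((d : ℝ) / Fintype.card I) ^ (p.toReal⁻¹ - q.toReal⁻¹))

-- deps:
def S_RED : Prop :=
  ∀ (D I : Type) [Fintype D] [Fintype I] (A : I → Matrix D D ℝ),
    ∃ x, Cube x ∧ lc A x = 0 ∧ (free x).card ≤ Fintype.card D ^ 2

-- deps:
def S_FIN : Prop :=
  ∀ (d : ℕ) (I : Type) [Fintype I] [DecidableEq I] (A : I → Matrix (Fin d) (Fin d) ℝ)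
    (q : ℝ≥0∞) (x₀ : I → ℝ), 2 ≤ q → (∀ i, schatten q (A i) ≤ 1) → Cube x₀ →
    (free x₀).card ≤ d → ∃ ε, Sign ε ∧ schatten q (lc A (ε - x₀)) ≤ 2 ^ 26 * √d

-- deps:
def S_GEO : Prop :=
  ∀ (d : ℕ) (I : Type) [Fintype I] [DecidableEq I] (A : I → Matrix (Fin d) (Fin d) ℝ)
    (p q : ℝ≥0∞), 2 ≤ p → p ≤ q → p.toReal⁻¹ - q.toReal⁻¹ ≤ 1 / 4 → 0 < d →
    d ≤ Fintype.card I → (∀ i, schatten p (A i) ≤ 1) →
    ∃ x, Cube x ∧ (free x).card ≤ d ∧ schatten q (lc A x) ≤ 2 ^ 29 * (√(Fintype.card I) *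
      ((d : ℝ) / Fintype.card I) ^ (p.toReal⁻¹ - q.toReal⁻¹))

-- deps: KOMS SPL2 RED
def S_BAN : Prop :=
  ∃ c : ℝ, 0 ≤ c ∧
    ∀ (d : ℕ) (I : Type) [Fintype I] [DecidableEq I] (A : I → Matrix (Fin d) (Fin d) ℝ)
    (p q : ℝ≥0∞), 2 ≤ p → p ≤ q → 1 / 4 ≤ p.toReal⁻¹ - q.toReal⁻¹ → 0 < d →
    d ≤ Fintype.card I → (∀ i, schatten p (A i) ≤ 1) →
    ∃ x, Cube x ∧ (free x).card ≤ d ∧ schatten q (lc A x) ≤ c * (√(Fintype.card I) *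
      ((d : ℝ) / Fintype.card I) ^ (p.toReal⁻¹ - q.toReal⁻¹))

-- deps: FIN GEO BAN
def S_FE : Prop :=
  ∃ C : ℝ, ∀ (p q : ℝ≥0∞), 2 ≤ p → p ≤ q → ∀ (m n : ℕ) (A : Fin n → Matrix (Fin m) (Fin m) ℝ),
    (∀ i, schatten p (A i) ≤ 1) →
    ∃ ε : Fin n → ℝ, (∀ i, ε i = 1 ∨ ε i = -1) ∧
      schatten q (∑ i, ε i • A i) ≤
        C * √(n * (min p (ENNReal.ofReal (max 1 (Real.log ((m : ℝ) / n))))).toReal) *
          (min 1 ((m : ℝ) / n)) ^ (p.toReal⁻¹ - q.toReal⁻¹)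

end Pool.Agent.P.MP_1157dd_an.K

namespace Pool.Agent.P.MP_1157dd_an.K

open Matrix Filter Topology N
open scoped ENNReal

theorem p_PAR : S_PAR := by
  intro I J _ _ _ C w hw
  have hinj : Function.Injective (1 + diagonal w * (Cᵀ * C)).mulVec := by
    refine (injective_iff_map_eq_zero (1 + diagonal w * (Cᵀ * C)).mulVecLin).2 fun y hy => ?_
    rw [mulVecLin_apply, add_mulVec, one_mulVec, ← mulVec_mulVec, ← mulVec_mulVec] at hy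
    have h1 : y ⬝ᵥ Cᵀ *ᵥ C *ᵥ y = C *ᵥ y ⬝ᵥ C *ᵥ y := by
      rw [dotProduct_mulVec, vecMul_transpose]
    have h2 : y ⬝ᵥ Cᵀ *ᵥ C *ᵥ y + ∑ j, w j * (Cᵀ *ᵥ C *ᵥ y) j ^ 2 = 0 := by
      rw [← qf_diagonal, qf, dotProduct_comm y, ← dotProduct_add, hy, dotProduct_zero]
    have h3 : 0 ≤ ∑ j, w j * (Cᵀ *ᵥ C *ᵥ y) j ^ 2 :=
      Finset.sum_nonneg fun j _ => mul_nonneg (hw j) (sq_nonneg _)
    have h4 : C *ᵥ y = 0 :=
      dotProduct_self_eq_zero.1 (le_antisymm (by linarith) (dot_nonneg _))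
    simpa [h4] using hy
  obtain ⟨u, hu⟩ := mulVec_injective_iff_isUnit.1 hinj
  have e1 : (u⁻¹).1 * (1 + diagonal w * (Cᵀ * C)) = 1 := hu ▸ u.inv_mul
  generalize (u⁻¹).1 = N at e1
  have e3 : 1 - N * diagonal w * Cᵀ * C = N := by
    rw [← e1, Matrix.mul_add, Matrix.mul_one, Matrix.mul_assoc (N * diagonal w), Matrix.mul_assoc N,
      add_sub_cancel_right]
  refine ⟨N * diagonal w * Cᵀ, by rw [e3, e1], fun a m => ?_⟩
  have e4 : (N * diagonal w * Cᵀ)ᵀ *ᵥ a = C *ᵥ diagonal w *ᵥ Nᵀ *ᵥ a := by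
    simp only [transpose_mul, transpose_transpose, diagonal_transpose, mulVec_mulVec,
      Matrix.mul_assoc]
  have e5 : a = Nᵀ *ᵥ a + Cᵀ *ᵥ C *ᵥ diagonal w *ᵥ Nᵀ *ᵥ a := by
    have := congrArg (fun Z => Zᵀ *ᵥ a) e1
    simp only [transpose_mul, transpose_add, transpose_one, transpose_transpose, one_mulVec,
      diagonal_transpose, ← mulVec_mulVec, add_mulVec] at this
    exact this.symm
  rw [e3, e4]
  generalize Nᵀ *ᵥ a = b at e5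
  obtain ⟨h, rfl⟩ : ∃ h, m = C *ᵥ diagonal w *ᵥ b + h := ⟨_, (add_sub_cancel _ m).symm⟩
  have e6 : ∑ j, w j * b j * (Cᵀ *ᵥ h) j = ∑ l, (C *ᵥ diagonal w *ᵥ b) l * h l := by
    change _ = C *ᵥ diagonal w *ᵥ b ⬝ᵥ h
    rw [← vecMul_transpose C, ← dotProduct_mulVec]
    simp only [dotProduct, mulVec_diagonal]
  have e7 : ∑ j, w j * (a - Cᵀ *ᵥ (C *ᵥ diagonal w *ᵥ b + h)) j ^ 2 = ∑ j, w j * b j ^ 2 -
      2 * ∑ j, w j * b j * (Cᵀ *ᵥ h) j + ∑ j, w j * (Cᵀ *ᵥ h) j ^ 2 := by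
    rw [e5, mulVec_add, Finset.mul_sum, ← Finset.sum_sub_distrib, ← Finset.sum_add_distrib]
    exact Finset.sum_congr rfl fun j _ => by simp only [Pi.sub_apply, Pi.add_apply]; ring
  have e8 : ∑ l, (C *ᵥ diagonal w *ᵥ b + h) l ^ 2 = ∑ l, (C *ᵥ diagonal w *ᵥ b) l ^ 2 +
      2 * ∑ l, (C *ᵥ diagonal w *ᵥ b) l * h l + ∑ l, h l ^ 2 := by
    rw [Finset.mul_sum, ← Finset.sum_add_distrib, ← Finset.sum_add_distrib]
    exact Finset.sum_congr rfl fun j _ => by rw [Pi.add_apply]; ring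
  have h3 : 0 ≤ ∑ j, w j * (Cᵀ *ᵥ h) j ^ 2 :=
    Finset.sum_nonneg fun j _ => mul_nonneg (hw j) (sq_nonneg _)
  have h4 : 0 ≤ ∑ l, h l ^ 2 := Finset.sum_nonneg fun j _ => sq_nonneg _
  linarith

theorem p_SQ : S_SQ := by
  intro x y hx
  rcases eq_or_ne y 0 with rfl | hy
  · simp
  have h0 : 0 < 1 - x ^ 2 := by linarith [(sq_lt_one_iff_abs_lt_one x).2 hx]
  have hw := Real.sqrt_pos.2 h0
  have hw2 := Real.sq_sqrt h0.le
  generalize √(1 - x ^ 2) = w at hw hw2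
  have c1 : ContinuousAt (fun t : ℝ => w - t * (x * y / w) - t ^ 2 * (y ^ 2 / (4 * w ^ 3))) 0 := by
    fun_prop
  have c2 : ContinuousAt (fun t : ℝ => y ^ 2 / (2 * w ^ 2) +
      2 * t * (x * y / w) * (y ^ 2 / (4 * w ^ 3)) + t ^ 2 * (y ^ 2 / (4 * w ^ 3)) ^ 2) 0 := by
    fun_prop
  filter_upwards [c1.eventually (lt_mem_nhds (a := 0) (by simpa using hw)),
    c2.eventually (lt_mem_nhds (a := 0) (by simp; positivity))] with t h1 h2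
  refine Real.sqrt_le_iff.2 ⟨h1.le, ?_⟩
  have e : (w - t * (x * y / w) - t ^ 2 * (y ^ 2 / (4 * w ^ 3))) ^ 2 = 1 - (x + t * y) ^ 2 +
      t ^ 2 * (y ^ 2 / (2 * w ^ 2) + 2 * t * (x * y / w) * (y ^ 2 / (4 * w ^ 3)) +
        t ^ 2 * (y ^ 2 / (4 * w ^ 3)) ^ 2) := by
    have e1 : (1 : ℝ) = w ^ 2 + x ^ 2 := by linarith
    have e2 : y ^ 2 / (2 * w ^ 2) = y ^ 2 * (w ^ 2 + x ^ 2) / w ^ 2 - y ^ 2 / (2 * w ^ 2) := by
      rw [← e1]; field_simp; ring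
    rw [e2]
    nth_rewrite 1 [e1]
    field_simp
    ring
  rw [e]
  exact le_add_of_nonneg_right (mul_nonneg (sq_nonneg _) h2.le)

theorem p_RED : S_RED := by
  intro D I _ _ A
  classical
  have hc : IsCompact {x : I → ℝ | Cube x ∧ lc A x = 0} := by
    refine (isCompact_Icc (a := fun _ => -1) (b := fun _ => 1)).of_isClosed_subset
      (IsClosed.inter (s₁ := {x | Cube x}) ?_ (isClosed_eq (by unfold lc; fun_prop) continuous_const))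
      fun x hx => ⟨fun i => (abs_le.1 (hx.1 i)).1, fun i => (abs_le.1 (hx.1 i)).2⟩
    simp only [Cube, Set.ofPred_forall]
    exact isClosed_iInter fun i => isClosed_le (by fun_prop) continuous_const
  obtain ⟨x, ⟨h1, h2⟩, h3⟩ := hc.exists_isMaxOn ⟨0, fun i => by simp, lc_zero A⟩
    (f := fun x => x ⬝ᵥ x) (by fun_prop)
  refine ⟨x, h1, h2, not_lt.1 fun h4 => ?_⟩
  obtain ⟨N, hN, hN2⟩ := cod_supp (free x)
  let L : (I → ℝ) →ₗ[ℝ] (D × D → ℝ) :=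
    { toFun := fun y p => lc A y p.1 p.2
      map_add' := fun y z => by rw [lc_add]; rfl
      map_smul' := fun a y => by rw [lc_smul]; rfl }
  obtain ⟨y, ⟨hy1, hy2⟩, hy3⟩ := (hN.inf (cod_ker L)).exists_ne (by
    rw [Fintype.card_prod, ← sq]
    have : ((Fintype.card D ^ 2 : ℕ) : ℝ) < (free x).card := by exact_mod_cast h4
    linarith)
  have hy4 : lc A y = 0 := by
    ext a b
    exact congrFun (LinearMap.mem_ker.1 hy2) (a, b)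
  have h5 : ∀ᶠ t in 𝓝 (0 : ℝ), Cube (x + t • y) := by
    refine eventually_all.2 fun i => ?_
    by_cases hi : i ∈ free x
    · have : ContinuousAt (fun t : ℝ => |(x + t • y) i|) 0 := by fun_prop
      exact (this.eventually (gt_mem_nhds (by simpa using mem_free.1 hi))).mono fun t ht => ht.le
    · simpa [hN2 y hy1 i hi] using h1 i
  have h6 : ∀ᶠ t in 𝓝 (0 : ℝ), Cube (x + (-t) • y) :=
    (continuous_neg.tendsto' 0 0 neg_zero).eventually h5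
  obtain ⟨t, ⟨h7, h8⟩, h9⟩ := (((h5.and h6).filter_mono nhdsWithin_le_nhds).and
    (self_mem_nhdsWithin (a := (0 : ℝ)) (s := Set.Ioi 0))).exists
  have k : ∀ s : ℝ, Cube (x + s • y) → 2 * s * (x ⬝ᵥ y) + s ^ 2 * (y ⬝ᵥ y) ≤ 0 := fun s hs => by
    have : (x + s • y) ⬝ᵥ (x + s • y) ≤ x ⬝ᵥ x :=
      h3 ⟨hs, by rw [lc_add, lc_smul, h2, hy4, smul_zero, add_zero]⟩
    simp only [add_dotProduct, dotProduct_add, smul_dotProduct, dotProduct_smul, smul_eq_mul,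
      dotProduct_comm y x] at this
    linarith
  have h10 : 0 < y ⬝ᵥ y :=
    (dot_nonneg y).lt_of_ne fun h => hy3 (dotProduct_self_eq_zero.1 h.symm)
  have h11 : 0 < t ^ 2 * (y ⬝ᵥ y) := mul_pos (pow_pos h9 2) h10
  linarith [k t h7, k (-t) h8, neg_sq t]

end Pool.Agent.P.MP_1157dd_an.K

/-! The determinant step. -/

namespace Pool.Agent.P.MP_1157dd_an.K

open Matrix Filter Topology N
open scoped ENNReal

namespace DETx

variable {F J : Type} [Fintype F] [DecidableEq F] [Fintype J]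

lemma det_conj {O : Matrix F F ℝ} (h : O * Oᵀ = 1) (a : F → ℝ) :
    (O * diagonal a * Oᵀ).det = ∏ i, a i := by
  rw [det_mul, det_mul, mul_right_comm, ← det_mul, h, det_one, one_mul, det_diagonal]

lemma spec' {M : Matrix F F ℝ} (h : Mᵀ = M) : ∃ (O : Matrix F F ℝ) (ζ : F → ℝ),
    (∀ v, v ⬝ᵥ v = ∑ i, (Oᵀ *ᵥ v) i ^ 2) ∧ (∀ v, qf M v = ∑ i, ζ i * (Oᵀ *ᵥ v) i ^ 2) ∧
    (∀ i, ∃ v, v ⬝ᵥ v = 1 ∧ qf M v = ζ i) ∧ M.det = ∏ i, ζ i ∧ M.trace = ∑ i, ζ i ∧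
    (1 + M).det = ∏ i, (1 + ζ i) := by
  obtain ⟨O, ζ, a1, a2, a3⟩ := spec h
  have e1 : ∀ v, v ⬝ᵥ v = ∑ i, (Oᵀ *ᵥ v) i ^ 2 := fun v => by
    rw [← dot_eq_sq, ← qf_one (Oᵀ *ᵥ v), ← qf_conj, transpose_transpose, mul_one, a2, qf_one]
  have e2 : ∀ v, qf M v = ∑ i, ζ i * (Oᵀ *ᵥ v) i ^ 2 := fun v => by
    rw [a3, ← qf_diagonal, ← qf_conj, transpose_transpose]
  refine ⟨O, ζ, e1, e2, fun i => ⟨O *ᵥ Pi.single i 1, ?_, ?_⟩, ?_, ?_, ?_⟩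
  · rw [← qf_one, ← qf_conj, mul_one, a1, qf_single, one_apply_eq]
  · rw [← qf_conj, a3, ← mul_assoc, ← mul_assoc, a1, one_mul, mul_assoc, a1, mul_one,
      qf_single, diagonal_apply_eq]
  · rw [a3, det_conj a2]
  · rw [a3, trace_mul_comm, ← mul_assoc, a1, one_mul, trace_diagonal]
  · rw [← det_conj a2, a3, ← diagonal_add, mul_add, add_mul, diagonal_one, mul_one, a2]

lemma det_le {M : Matrix F F ℝ} (h : Mᵀ = M) (h0 : ∀ v, 0 ≤ qf M v)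
    (ht : ∀ j, M j j ≤ 1) :
    0 < (1 + M).det ∧ (1 + M).det ≤ Real.exp (Fintype.card F) := by
  obtain ⟨O, ζ, -, -, a3, -, a5, a6⟩ := spec' h
  have hζ : ∀ i, 0 ≤ ζ i := fun i => by
    obtain ⟨v, -, e⟩ := a3 i
    exact e ▸ h0 v
  rw [a6]
  refine ⟨Finset.prod_pos fun i _ => by linarith [hζ i], ?_⟩
  calc ∏ i, (1 + ζ i) ≤ ∏ i, Real.exp (ζ i) :=
        Finset.prod_le_prod (fun i _ => by linarith [hζ i])
          fun i _ => by linarith [Real.add_one_le_exp (ζ i)]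
    _ = Real.exp M.trace := by rw [a5, Real.exp_sum]
    _ ≤ _ := Real.exp_le_exp.2 <| by
        calc M.trace ≤ ∑ _j : F, (1 : ℝ) := Finset.sum_le_sum fun j _ => ht j
          _ = _ := by simp

lemma det_L (C : Matrix J F ℝ) {w : F → ℝ} (h0 : ∀ j, 0 ≤ w j) (h1 : ∀ j, w j ≤ 1)
    (hC : ∀ j, ∑ l, C l j ^ 2 ≤ 1) :
    0 < (1 + diagonal w * (Cᵀ * C)).det ∧
      (1 + diagonal w * (Cᵀ * C)).det ≤ Real.exp (Fintype.card F) := by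
  have e : diagonal w = diagonal (fun j => √(w j)) * diagonal (fun j => √(w j)) := by
    rw [diagonal_mul_diagonal]
    exact congrArg _ (funext fun j => (Real.mul_self_sqrt (h0 j)).symm)
  rw [e, mul_assoc, det_one_add_mul_comm]
  refine det_le (by simp only [transpose_mul, diagonal_transpose, transpose_transpose, mul_assoc])
    (fun v => ?_) fun j => ?_
  · classical
    have := qf_conj (1 : Matrix J J ℝ) (C * diagonal fun j => √(w j)) v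
    rw [Matrix.mul_one, transpose_mul, diagonal_transpose, qf_one, Matrix.mul_assoc,
      ← Matrix.mul_assoc Cᵀ, ← Matrix.mul_assoc] at this
    exact this ▸ dot_nonneg _
  · rw [mul_diagonal, diagonal_mul, mul_right_comm, Real.mul_self_sqrt (h0 j), mul_apply]
    refine mul_le_one₀ (h1 j) (Finset.sum_nonneg fun l _ => mul_self_nonneg _) ?_
    simpa only [transpose_apply, sq] using hC j

omit [DecidableEq F] in
lemma count {z : F → ℝ} {Ξ R : ℝ} (hΞ : 1 ≤ Ξ) (hR : 4 + Real.log Ξ ≤ R) (hz : ∀ i, 1 ≤ Ξ * z i)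
    (hp : ∏ i, z i ≤ Real.exp (3 * Fintype.card F)) :
    (Fintype.card F : ℝ) - (Finset.univ.filter fun i => z i ≤ Real.exp 4).card ≤
      Fintype.card F - Fintype.card F / R := by
  have z0 : ∀ i, 0 < z i := fun i => by
    by_contra hi
    nlinarith [hz i, not_lt.1 hi]
  have l0 := Real.log_nonneg hΞ
  have a1 : ∑ i, Real.log (z i) ≤ 3 * Fintype.card F := by
    rw [← Real.log_prod fun i _ => (z0 i).ne']
    exact (Real.log_le_iff_le_exp (Finset.prod_pos fun i _ => z0 i)).2 hp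
  have a2 : ∑ i, ((4 : ℝ) - (4 + Real.log Ξ) * if z i ≤ Real.exp 4 then 1 else 0) ≤
      ∑ i, Real.log (z i) := Finset.sum_le_sum fun i _ => by
    split_ifs with hi
    · have := Real.log_nonneg (hz i)
      rw [Real.log_mul (by linarith) (z0 i).ne'] at this
      linarith
    · have := (Real.le_log_iff_exp_le (z0 i)).2 (not_le.1 hi).le
      linarith
  rw [Finset.sum_sub_distrib, ← Finset.mul_sum, Finset.sum_boole] at a2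
  simp only [Finset.sum_const, Finset.card_univ, nsmul_eq_mul] at a2
  have a3 : (Fintype.card F : ℝ) / R ≤ (Finset.univ.filter fun i => z i ≤ Real.exp 4).card := by
    rw [div_le_iff₀ (by linarith)]
    nlinarith [(Nat.cast_nonneg (Finset.univ.filter fun i => z i ≤ Real.exp 4).card : (0 : ℝ) ≤ _)]
  linarith

lemma exp_four : Real.exp 4 ≤ 55 := by
  have h := Real.exp_one_lt_d9
  have h0 := Real.exp_pos 1
  have e : Real.exp 4 = Real.exp 1 ^ 4 := by rw [← Real.exp_nat_mul]; norm_num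
  rw [e]
  exact (pow_le_pow_left₀ h0.le h.le 4).trans (by norm_num)

lemma core (L H : Matrix F F ℝ) (Δ : F → ℝ) {Ξ R : ℝ} (l0 : 0 < L.det)
    (l1 : L.det ≤ Real.exp (Fintype.card F)) (hH : Hᵀ = H) (h0 : ∀ y, 0 ≤ qf H y)
    (hΔ : ∀ j, 0 < Δ j) (hd : ∀ j, H j j ≤ Δ j) (hΞ : 1 ≤ Ξ) (hR : 4 + Real.log Ξ ≤ R)
    (hL : ∀ y, ∑ j, Δ j * y j ^ 2 ≤ Ξ * ∑ j, Δ j * (L *ᵥ y) j ^ 2) :
    ∃ N : Submodule ℝ (F → ℝ), Cod N (Fintype.card F - Fintype.card F / R) ∧ ∀ y ∈ N,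
      qf H (L *ᵥ y) ≤ 55 * ∑ j, Δ j * y j ^ 2 := by
  set D : Matrix F F ℝ := diagonal fun j => (√(Δ j))⁻¹ with hD
  set E : Matrix F F ℝ := diagonal fun j => √(Δ j) with hE
  have s0 : ∀ j, √(Δ j) ≠ 0 := fun j => (Real.sqrt_pos.2 (hΔ j)).ne'
  have DE : D * E = 1 := by
    rw [diagonal_mul_diagonal, ← diagonal_one]
    exact congrArg _ (funext fun j => inv_mul_cancel₀ (s0 j))
  have ED : E * D = 1 := mul_eq_one_comm.1 DE
  have hq : ∀ y, ∑ j, Δ j * y j ^ 2 = E *ᵥ y ⬝ᵥ E *ᵥ y := fun y => by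
    rw [dot_eq_sq]
    exact Finset.sum_congr rfl fun j _ => by
      rw [mulVec_diagonal, mul_pow, Real.sq_sqrt (hΔ j).le]
  have nn : ∀ y : F → ℝ, 0 ≤ ∑ j, Δ j * y j ^ 2 := fun y => hq y ▸ dot_nonneg _
  obtain ⟨O, z, a1, a2, a3, a4, -, -⟩ := spec' (M := (L * D)ᵀ * (H + diagonal Δ) * (L * D))
    (by simp only [transpose_mul, transpose_add, transpose_transpose, hH, diagonal_transpose,
      mul_assoc])
  simp only [qf_conj, qf_add, qf_diagonal] at a2 a3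
  have hz : ∀ i, 1 ≤ Ξ * z i := fun i => by
    obtain ⟨v, e1, e2⟩ := a3 i
    have b := hL (D *ᵥ v)
    rw [hq, mulVec_mulVec, ED, one_mulVec, e1, mulVec_mulVec] at b
    rw [← e2]
    nlinarith [h0 ((L * D) *ᵥ v)]
  have hp : ∏ i, z i ≤ Real.exp (3 * Fintype.card F) := by
    have e : Dᵀ * (H + diagonal Δ) * D = 1 + Dᵀ * H * D := by
      rw [mul_add, add_mul, add_comm, diagonal_transpose, diagonal_mul_diagonal,
        diagonal_mul_diagonal, ← diagonal_one]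
      congr 2
      funext j
      rw [mul_right_comm, ← mul_inv, Real.mul_self_sqrt (hΔ j).le, inv_mul_cancel₀ (hΔ j).ne']
    obtain ⟨b0, b1⟩ := det_le (M := Dᵀ * H * D)
      (by simp only [transpose_mul, transpose_transpose, hH, mul_assoc])
      (fun v => by rw [qf_conj]; exact h0 _) fun j => by
        rw [diagonal_transpose, mul_diagonal, diagonal_mul, mul_right_comm, ← mul_inv,
          Real.mul_self_sqrt (hΔ j).le, inv_mul_le_iff₀ (hΔ j), mul_one]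
        exact hd j
    rw [← e] at b0 b1
    simp only [det_mul, det_transpose] at a4 b0 b1
    calc ∏ i, z i = L.det * L.det * (D.det * (H + diagonal Δ).det * D.det) := by rw [← a4]; ring
      _ ≤ Real.exp (Fintype.card F) * Real.exp (Fintype.card F) * Real.exp (Fintype.card F) := by
          gcongr
      _ = _ := by rw [← Real.exp_add, ← Real.exp_add]; ring_nf
  obtain ⟨N, hN, hN2⟩ := cod_supp (Finset.univ.filter fun i => z i ≤ Real.exp 4)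
  refine ⟨N.comap (Oᵀ * E).mulVecLin, (hN.comap _).mono (count hΞ hR hz hp), fun y hy => ?_⟩
  have b := a2 (E *ᵥ y)
  rw [mulVec_mulVec, mul_assoc, DE, mul_one] at b
  have b2 : ∑ i, z i * (Oᵀ *ᵥ E *ᵥ y) i ^ 2 ≤ 55 * ∑ j, Δ j * y j ^ 2 := by
    rw [hq, a1, Finset.mul_sum]
    refine Finset.sum_le_sum fun i _ => ?_
    by_cases hi : z i ≤ Real.exp 4
    · exact mul_le_mul_of_nonneg_right (hi.trans exp_four) (sq_nonneg _)
    · have : (Oᵀ *ᵥ E *ᵥ y) i = 0 := by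
        rw [mulVec_mulVec]
        exact hN2 _ hy i (by simpa using hi)
      simp [this]
  linarith [nn (L *ᵥ y)]

variable (S : Finset F)

/-- extension by zero -/
def ex (z : {j // j ∈ S} → ℝ) (i : F) : ℝ := if h : i ∈ S then z ⟨i, h⟩ else 0

lemma sum_ex (z : {j // j ∈ S} → ℝ) (g : F → ℝ → ℝ) (hg : ∀ i, g i 0 = 0) :
    ∑ i, g i (ex S z i) = ∑ j : {j // j ∈ S}, g j (z j) := by
  rw [← Finset.sum_subset (Finset.subset_univ S) (fun i _ hi => by simp [ex, hi, hg]),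
    ← Finset.sum_coe_sort S]
  exact Finset.sum_congr rfl fun j _ => by simp [ex, j.2]

lemma mulVec_ex {K : Type} (M : Matrix K F ℝ) (z : {j // j ∈ S} → ℝ) :
    M *ᵥ ex S z = M.submatrix id Subtype.val *ᵥ z :=
  funext fun k => sum_ex S z (fun i t => M k i * t) fun _ => mul_zero _

lemma qf_ex (H : Matrix F F ℝ) (z : {j // j ∈ S} → ℝ) :
    qf H (ex S z) = qf (H.submatrix Subtype.val Subtype.val) z := by
  unfold qf
  rw [mulVec_ex]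
  exact sum_ex S z (fun i t => t * (H.submatrix id Subtype.val *ᵥ z) i) fun _ => zero_mul _

lemma L_ex (C : Matrix J F ℝ) {w : F → ℝ} (hw : ∀ j, j ∉ S → w j = 0) (z : {j // j ∈ S} → ℝ) :
    (1 + diagonal w * (Cᵀ * C)) *ᵥ ex S z = ex S ((1 + diagonal (fun j : {j // j ∈ S} => w j) *
      ((C.submatrix id Subtype.val)ᵀ * C.submatrix id Subtype.val)) *ᵥ z) := by
  funext i
  simp only [add_mulVec, one_mulVec, ← mulVec_mulVec, mulVec_ex S C, Pi.add_apply,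
    mulVec_diagonal]
  by_cases hi : i ∈ S
  · simp only [ex, dif_pos hi, Pi.add_apply, mulVec_diagonal]
    rfl
  · simp [ex, hi, hw i hi]

end DETx

open DETx in
theorem p_DET : S_DET := by
  intro I J _ _ _ C H w Δ S Ξ R w0 w1 wS hC hH h0 hΔ hd hΞ hR hL
  obtain ⟨l0, l1⟩ := det_L (C.submatrix id (Subtype.val : {j // j ∈ S} → I))
    (w := fun j => w j) (fun j => w0 j) (fun j => w1 j) fun j => hC j
  have sq : ∀ z : {j // j ∈ S} → ℝ,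
      ∑ j, Δ j * ex S z j ^ 2 = ∑ j : {j // j ∈ S}, Δ j * z j ^ 2 := fun z =>
    sum_ex S z (fun i t => Δ i * t ^ 2) fun _ => by simp
  obtain ⟨N, hN, hN2⟩ := DETx.core _ (H.submatrix Subtype.val Subtype.val) (fun j => Δ j) l0 l1
    (by rw [transpose_submatrix, hH]) (fun y => qf_ex S H y ▸ h0 _) (fun j => hΔ j)
    (fun j => hd j) hΞ hR fun y => by
      have := hL (ex S y)
      rwa [L_ex S C wS, sq, sq] at this
  refine ⟨N.comap (LinearMap.funLeft ℝ ℝ Subtype.val), by simpa using hN.comap _,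
    fun y hy hS => ?_⟩
  have e : y = ex S fun j => y j := funext fun i => by
    by_cases hi : i ∈ S
    · simp [ex, hi]
    · simp [ex, hi, hS i hi]
  rw [e, L_ex S C wS, qf_ex, sq]
  exact hN2 _ hy

end Pool.Agent.P.MP_1157dd_an.K
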