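import Pool.Agent.P.MP_1157dd_an.K.Base

/-! The Komlos step for Schatten norms. -/

namespace Pool.Agent.P.MP_1157dd_an.K

open Matrix Filter Topology N
open scoped ENNReal

namespace KOMSx

open ENTSx

variable {D : Type} [Fintype D] [DecidableEq D]

lemma frob_l {O : Matrix D D ℝ} (hO : Oᵀ * O = 1) (S : Finset D) (X : Matrix D D ℝ) :
    frob (prj O S * X) ≤ frob X := by
  rw [← frob_transpose, ← frob_transpose X]
  refine Finset.sum_le_sum fun j _ => ?_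
  have := prj_le hO S fun i => X i j
  rw [dot_eq_sq, dot_eq_sq] at this
  exact this

lemma frob_lr {O₁ O₂ : Matrix D D ℝ} (h₁ : O₁ᵀ * O₁ = 1) (h₂ : O₂ᵀ * O₂ = 1) (S₁ S₂ : Finset D)
    (X : Matrix D D ℝ) : frob (prj O₁ S₁ * X * prj O₂ S₂) ≤ frob X := by
  rw [mul_assoc]
  refine (frob_l h₁ _ _).trans ?_
  rw [← frob_transpose, transpose_mul, prj_transpose, ← frob_transpose X]
  exact frob_l h₂ _ _

lemma div_anti {T : ℝ} (hT : 0 < T) {s S : ℕ} (h : S ≤ s) : T / 2 ^ s ≤ T / 2 ^ S :=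
  div_le_div_of_nonneg_left hT.le (by positivity) (pow_le_pow_right₀ one_le_two h)

end KOMSx

open KOMSx in
theorem p_LAY2 : S_LAY2 := by
  intro d q f g h a T S hq ha hT h1 hf hg hh hgT hhT hc
  have hσ : ∀ s : ℕ, 0 < a * (T / 2 ^ s) := fun s => by positivity
  have h2 := hLAY d q (fun j => if a * (T / 2 ^ S) < f j then f j else 0) g h a T d hq ha hT
    Nat.lt_two_pow_self.le (fun j => by split_ifs; exacts [hf j, le_rfl]) hg hh hgT hhT
    fun s _ => by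
      rcases le_total s S with hs | hs
      · refine le_trans (Finset.card_le_card fun j hj => ?_) (hc s hs)
        simp only [Finset.mem_filter, Finset.mem_univ, true_and] at hj ⊢
        split_ifs at hj
        · exact hj
        · exact absurd hj (hσ s).le.not_gt
      · refine le_trans (Finset.card_le_card fun j hj => ?_) ((hc S le_rfl).trans (add_le_add
          (Finset.card_le_card fun j hj => ?_) (Finset.card_le_card fun j hj => ?_))) <;>
          simp only [Finset.mem_filter, Finset.mem_univ, true_and] at hj ⊢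
        · split_ifs at hj with h3
          · exact h3
          · exact absurd hj (hσ s).le.not_gt
        · exact (div_anti hT hs).trans_lt hj
        · exact (div_anti hT hs).trans_lt hj
  have h3 := (hLP _ q hq f).2.2.2.2.1 ((fun j => if a * (T / 2 ^ S) < f j then f j else 0) +
    (a * (T / 2 ^ S)) • fun _ : Fin d => (1 : ℝ)) fun j => by
      refine (abs_of_nonneg (hf j)).trans_le (le_trans ?_ (le_abs_self _))
      simp only [Pi.add_apply, Pi.smul_apply, smul_eq_mul, mul_one]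
      split_ifs with h4
      · linarith [hσ S]
      · linarith
  have h4 := (hLP _ q hq fun j => if a * (T / 2 ^ S) < f j then f j else 0).2.2.1
    ((a * (T / 2 ^ S)) • fun _ : Fin d => (1 : ℝ))
  rw [(hLP _ q hq _).2.2.2.1, abs_of_pos (hσ S)] at h4
  have h5 := mul_le_mul_of_nonneg_left h1 (hσ S).le
  have h6 : a * (T / 2 ^ S) * 2 ^ S = a * T := by field_simp
  linarith

open KOMSx ENTSx in
theorem p_KOMS (hPAR : S_PAR) (hKOM : S_KOM) (hLAY2 : S_LAY2) : S_KOMS := by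
  intro d I J _ _ _ A C x₀ q T v u S hq hT hu hd hn hS h1 hC hx hv hvT hΓ
  obtain ⟨M₀, hM⟩ := hPAR I J C (sq1 x₀) (sq1_nonneg x₀)
  obtain ⟨g1, g2, -, -, g5⟩ := hM.gam
  have hV := hΓ _ g1 g2
  set B := cols A (gam C M₀ x₀) with hB
  obtain ⟨O₁, h₁⟩ := exists_Dg fun l => (B l)ᵀ
  obtain ⟨O₂, h₂⟩ := exists_Dg B
  obtain ⟨g, hg⟩ : ∃ g : Fin d → ℝ, g = fun e => √(vr (fun l => (B l)ᵀ) fun a => O₁ a e) :=
    ⟨_, rfl⟩
  obtain ⟨h, hh⟩ : ∃ h : Fin d → ℝ, h = fun e => √(vr B fun a => O₂ a e) := ⟨_, rfl⟩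
  have hσ : ∀ s : ℕ, 0 < T / 2 ^ s := fun s => div_pos hT (by positivity)
  have u1 : (1 : ℝ) ≤ u := le_trans (by norm_num) hu
  have u0 : (0 : ℝ) < u := zero_lt_one.trans_le u1
  have hcols : ∀ P Q : Matrix (Fin d) (Fin d) ℝ,
      cols (fun i => P * A i * Q) (gam C M₀ x₀) = fun l => P * B l * Q := fun P Q =>
    funext fun l => lc_blk A P Q _
  obtain ⟨x, a1, a2, a4⟩ := hKOM (Fin d) I J (Fin (S + 1))
    (fun s i => prj O₁ (Finset.univ.filter fun e => g e ≤ T / 2 ^ (s : ℕ)) *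
      A i * prj O₂ (Finset.univ.filter fun e => h e ≤ T / 2 ^ (s : ℕ)))
    (fun s => T / 2 ^ (s : ℕ)) C x₀ M₀ (52 * u ^ 17) (u ^ 2) (8 / u ^ 8) (65 * u) (u ^ 15)
    (fun s => hσ _) hC hx g5
    (fun s w => by
      rw [hcols]
      refine ⟨by subst hh; exact vr_blk h₁.1 h₂ _ (hσ _).le w, ?_⟩
      subst hg
      simp only [transpose_mul, prj_transpose, ← mul_assoc]
      exact vr_blk h₂.1 h₁ _ (hσ _).le w)
    (by positivity)
    (fun s y => by
      rw [lc_blk]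
      refine ((frob_lr h₁.1 h₂.1 _ _ _).trans (hv y)).trans
        (mul_le_mul_of_nonneg_right ?_ (dot_nonneg _))
      refine le_trans ?_ (mul_le_mul_of_nonneg_left (pow_le_pow_left₀ (hσ S).le
        (div_anti hT (Nat.le_of_lt_succ s.2)) 2) (by positivity))
      rw [div_pow, ← pow_mul, mul_comm S 2, pow_mul, div_mul_div_comm, le_div_iff₀ (by positivity)]
      norm_num
      linarith)
    (by
      rw [Fintype.card_fin, Fintype.card_fin, Nat.cast_add_one]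
      have := mul_le_mul hS hd (Nat.cast_nonneg _) (by positivity)
      linarith [show 26 * u * u ^ 16 = 26 * u ^ 17 by ring])
    (by linarith [one_le_pow₀ (n := 17) u1]) (by positivity)
    (by
      have a : u ≤ u ^ 15 := le_self_pow₀ u1 (by norm_num)
      have b := mul_le_mul_of_nonneg_right (show (2 : ℝ) ^ 17 * 52 ≤ u ^ 15 by linarith)
        (pow_pos u0 17).le
      calc _ = (2 : ℝ) ^ 17 * 52 * u ^ 17 := by ring
        _ ≤ _ := b
        _ = _ := by ring)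
    (by
      have a : (Fintype.card I + 1 : ℝ) ≤ 2 * u ^ 32 := by linarith [one_le_pow₀ (n := 32) u1]
      have b : 3 * (Fintype.card I + 1 : ℝ) ^ 2 ≤ 12 * u ^ 64 := by
        have := pow_le_pow_left₀ (by positivity) a 2
        linarith [show (2 * u ^ 32) ^ 2 = 4 * u ^ 64 by ring]
      have c := Real.log_le_log (by positivity) b
      rw [Real.log_mul (x := 12) (by norm_num) (by positivity), Real.log_pow u] at c
      have e := Real.log_le_sub_one_of_pos u0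
      have e' := Real.log_le_sub_one_of_pos (show (0 : ℝ) < 12 by norm_num)
      push_cast at c
      linarith)
    (by
      rw [show 2 ^ 15 * (65 * u) * (u ^ 2) ^ 2 * (8 / u ^ 8) = 2 ^ 15 * 520 / u ^ 3 by
        field_simp; norm_num, div_le_one (by positivity)]
      linarith [le_self_pow₀ u1 (show 3 ≠ 0 by norm_num)])
    (by
      rw [show 2 ^ 37 * (65 * u) * (u ^ 2) ^ 2 * (8 / u ^ 8) * (52 * u ^ 17) =
        2 ^ 37 * 27040 * u ^ 14 by field_simp; norm_num, pow_succ' u 14]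
      exact mul_le_mul_of_nonneg_right (by linarith) (by positivity))
  refine ⟨x, a1, a2, ?_⟩
  have := hLAY2 d q (sv (lc A (x - x₀))) g h (2 ^ 11) T S hq (by positivity) hT h1 (hSV d _).1
    (fun j => by rw [hg]; exact Real.sqrt_nonneg _) (fun j => by rw [hh]; exact Real.sqrt_nonneg _)
    (by rw [hg]; exact (hV _ h₁.1).2) (by rw [hh]; exact (hV _ h₂.1).1)
    fun s hs => by
      have b := a4 ⟨s, Nat.lt_succ_of_le hs⟩
      simp only [lc_blk] at b
      have c := hCNT d _ _ _ _ _ _ (by have := hσ s; positivity) h₁.1 h₂.1 b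
      simpa only [Finset.compl_filter, not_le] using c
  rw [schatten_eq]
  linarith

end Pool.Agent.P.MP_1157dd_an.K

/-! Splitting into large and small singular values, with a reservoir. -/

namespace Pool.Agent.P.MP_1157dd_an.K

open Matrix Filter Topology N
open scoped ENNReal

namespace SPL2x

variable {D I J L : Type} [Fintype D] [Fintype I] [Fintype J] [Fintype L] {Γ : Matrix I L ℝ}

lemma vr_cols (X : I → Matrix D D ℝ) (Γ : Matrix I L ℝ) (v : D → ℝ) : vr (cols X Γ) v =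
    ∑ a, (Γᵀ *ᵥ fun i => (X i *ᵥ v) a) ⬝ᵥ (Γᵀ *ᵥ fun i => (X i *ᵥ v) a) := by
  rw [SPLITx.vr_eq]
  refine Finset.sum_congr rfl fun a _ => ?_
  rw [dot_eq_sq]
  simp only [cols, SPLITx.lc_vec]
  rfl

lemma vr_le (h : ∀ a, Γᵀ *ᵥ a ⬝ᵥ Γᵀ *ᵥ a ≤ a ⬝ᵥ a) (X : I → Matrix D D ℝ) (v : D → ℝ) :
    vr (cols X Γ) v ≤ vr X v := by
  rw [vr_cols, SPLITx.vr_eq]
  exact Finset.sum_le_sum fun a _ => (h _).trans_eq (dot_eq_sq _)

lemma vr_sup {A G S : I → Matrix D D ℝ} {C : Matrix J I ℝ} {b τ : ℝ} (hA : ∀ i, A i = G i + S i)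
    (h : ∀ a, Γᵀ *ᵥ a ⬝ᵥ Γᵀ *ᵥ a ≤ a ⬝ᵥ a)
    (hC : ∀ m, Γᵀ *ᵥ Cᵀ *ᵥ m ⬝ᵥ Γᵀ *ᵥ Cᵀ *ᵥ m ≤ m ⬝ᵥ m)
    (hG : ∀ a v, ∃ m, (Cᵀ *ᵥ m = fun i => (G i *ᵥ v) a) ∧ m ⬝ᵥ m = b * (v ⬝ᵥ v))
    (hS : ∀ i, OpLe (S i) τ) (v : D → ℝ) :
    vr (cols A Γ) v ≤ 2 * (Fintype.card D * b + Fintype.card I * τ ^ 2) * (v ⬝ᵥ v) := by
  have h1 : vr (cols G Γ) v ≤ Fintype.card D * (b * (v ⬝ᵥ v)) := by
    rw [vr_cols, ← nsmul_eq_mul, ← Finset.card_univ]
    refine Finset.sum_le_card_nsmul _ _ _ fun a _ => ?_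
    obtain ⟨m, e1, e2⟩ := hG a v
    rw [← e1, ← e2]
    exact hC m
  have h2 := vr_le h S v
  have h3 : vr S v ≤ Fintype.card I * (τ ^ 2 * (v ⬝ᵥ v)) := by
    rw [← nsmul_eq_mul, ← Finset.card_univ]
    exact Finset.sum_le_card_nsmul _ _ _ fun i _ => hS i v
  have h4 : vr (cols A Γ) v ≤ 2 * vr (cols G Γ) v + 2 * vr (cols S Γ) v := by
    simp only [SPLITx.vr_eq, Finset.mul_sum, ← Finset.sum_add_distrib]
    refine Finset.sum_le_sum fun a _ => Finset.sum_le_sum fun j _ => ?_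
    have : (cols A Γ j *ᵥ v) a = (cols G Γ j *ᵥ v) a + (cols S Γ j *ᵥ v) a := by
      simp only [cols, SPLITx.lc_vec, hA, add_mulVec, Pi.add_apply, mul_add,
        Finset.sum_add_distrib]
    rw [this]
    nlinarith [sq_nonneg ((cols G Γ j *ᵥ v) a - (cols S Γ j *ᵥ v) a)]
  linarith

/-- the reservoir matrix -/
noncomputable def CC (G A : I → Matrix D D ℝ) (g f : ℝ) : Matrix ((D × D) ⊕ (D × D)) I ℝ :=
  Matrix.of fun l j => Sum.elim (fun z => G j z.1 z.2 / √g) (fun z => A j z.1 z.2 / √f) l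

variable {G A : I → Matrix D D ℝ} {g f : ℝ}

omit [Fintype I] in
lemma CC_col (hg : 0 ≤ g) (hf : 0 ≤ f) (j : I) :
    ∑ l, CC G A g f l j ^ 2 = frob (G j) / g + frob (A j) / f := by
  simp only [CC, Fintype.sum_sum_type, Fintype.sum_prod_type, of_apply, Sum.elim_inl,
    Sum.elim_inr, div_pow, Real.sq_sqrt hg, Real.sq_sqrt hf, frob, Finset.sum_div]

lemma CC_low (hf : 0 < f) (y : I → ℝ) :
    frob (lc A y) ≤ f * (CC G A g f *ᵥ y ⬝ᵥ CC G A g f *ᵥ y) := by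
  have e : ∀ z : D × D, f * (CC G A g f *ᵥ y) (.inr z) ^ 2 = lc A y z.1 z.2 ^ 2 := fun z => by
    have : (CC G A g f *ᵥ y) (.inr z) = lc A y z.1 z.2 / √f := by
      simp only [CC, mulVec, dotProduct, of_apply, Sum.elim_inr, lc, Matrix.sum_apply,
        Matrix.smul_apply, smul_eq_mul, Finset.sum_div]
      exact Finset.sum_congr rfl fun i _ => by ring
    rw [this, div_pow, Real.sq_sqrt hf.le, mul_div_cancel₀ _ hf.ne']
  rw [dot_eq_sq, Fintype.sum_sum_type, mul_add, Finset.mul_sum _ (fun z => (CC G A g f *ᵥ y)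
    (.inr z) ^ 2)]
  simp only [e]
  rw [Fintype.sum_prod_type (f := fun z : D × D => lc A y z.1 z.2 ^ 2)]
  exact le_add_of_nonneg_left (mul_nonneg hf.le (Finset.sum_nonneg fun _ _ => sq_nonneg _))

omit [Fintype I] in
lemma CC_tr (hg : 0 < g) (W : Matrix D D ℝ) : ∃ m, ((CC G A g f)ᵀ *ᵥ m =
    fun i => ∑ a, ∑ b, G i a b * W a b) ∧ m ⬝ᵥ m = g * ∑ a, ∑ b, W a b ^ 2 := by
  have s := (Real.sqrt_pos.2 hg).ne'
  refine ⟨Sum.elim (fun z => √g * W z.1 z.2) 0, funext fun i => ?_, ?_⟩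
  · simp only [CC, mulVec, dotProduct, transpose_apply, of_apply, Fintype.sum_sum_type,
      Fintype.sum_prod_type, Sum.elim_inl, Sum.elim_inr, Pi.zero_apply, mul_zero,
      Finset.sum_const_zero, add_zero]
    exact Finset.sum_congr rfl fun a _ => Finset.sum_congr rfl fun b _ => by field_simp
  · simp [dot_eq_sq, Fintype.sum_prod_type, mul_pow, Real.sq_sqrt hg.le, Finset.mul_sum]

end SPL2x

open SPL2x SPLITx in
theorem p_SPL2 : S_SPL2 := by
  intro d I _ _ A p q hp hpq c2 hd hdn hA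
  have p1 : 1 ≤ p := one_le_two.trans hp
  obtain ⟨n, hn⟩ : ∃ n : ℝ, n = Fintype.card I := ⟨_, rfl⟩
  have d0 : (0 : ℝ) < d := Nat.cast_pos.2 hd
  have n1 : 0 < n := hn ▸ Nat.cast_pos.2 (hd.trans_le hdn)
  have hs : √(∑ i, schatten p (A i) ^ 2) ≤ √n := Real.sqrt_le_sqrt (by
    rw [hn, ← Finset.card_univ, ← nsmul_one]
    exact Finset.sum_le_card_nsmul _ _ _ fun i _ => pow_le_one₀ (hLP _ p p1 _).1 (hA i))
  have hV := hVAR d I A p hp
  rw [← hn]
  have ρ0 : 0 < d / n := div_pos d0 n1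
  have r2 : 2 ≤ p.toReal := by simpa using ENNReal.toReal_mono c2 hp
  have hd : ∀ τ : ℝ, 0 < τ → ∀ i, ∃ G S, A i = G + S ∧ frob G ≤ τ ^ (2 - p.toReal) ∧ OpLe S τ :=
    fun τ τ0 i => by
      obtain ⟨a0, O, -, a1, a2, a3, -⟩ := hSV d (A i)
      exact decomp a0 a1 a2 a3 τ0 r2 ((((hLP _ p p1 _).2.2.2.2.2.2.1 c2 1 zero_le_one).1
        (hA i)).trans_eq (Real.one_rpow _))
  obtain ⟨κ, hκ⟩ : ∃ κ : ℝ, κ = d ^ (1 - 2 * p.toReal⁻¹) := ⟨_, rfl⟩
  have κ0 : 0 < κ := hκ ▸ Real.rpow_pos_of_pos d0 _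
  have hf : ∀ i, frob (A i) ≤ 4 * κ := fun i => by
    obtain ⟨G, S, h1, h2, h3⟩ := hd (d ^ (-p.toReal⁻¹)) (Real.rpow_pos_of_pos d0 _) i
    have h4 := frob_le h3
    have h5 := frob_add_le G S
    rw [← Real.rpow_mul d0.le, show -p.toReal⁻¹ * (2 - p.toReal) = 1 - 2 * p.toReal⁻¹ by
      field_simp; ring, ← hκ] at h2
    rw [Fintype.card_fin, ← Real.rpow_two, ← Real.rpow_mul d0.le, ← Real.rpow_add_one d0.ne',
      show -p.toReal⁻¹ * 2 + 1 = 1 - 2 * p.toReal⁻¹ by ring, ← hκ] at h4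
    rw [h1]
    linarith
  obtain ⟨τ, hτ⟩ : ∃ τ : ℝ, τ = (d / n) ^ p.toReal⁻¹ := ⟨_, rfl⟩
  have τ0 : 0 < τ := hτ ▸ Real.rpow_pos_of_pos ρ0 _
  have τ1 : d * τ ^ (2 - p.toReal) = n * τ ^ 2 := by
    rw [Real.rpow_sub τ0, Real.rpow_two, show τ ^ p.toReal = d / n by
      rw [hτ, Real.rpow_inv_rpow ρ0.le (by linarith)]]
    field_simp
  have τ2 : 0 < τ ^ (2 - p.toReal) := Real.rpow_pos_of_pos τ0 _
  choose G S h1 h2 h3 using hd τ τ0
  have b0 : 0 < 2 * τ ^ (2 - p.toReal) := by positivity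
  have f0 : 0 < 8 * κ := by positivity
  rw [← hκ]
  refine ⟨CC G A (2 * τ ^ (2 - p.toReal)) (8 * κ), fun j => ?_, CC_low f0,
    fun L _ Γ g1 g2 O hO => ?_⟩
  · have a1 : frob (G j) / (2 * τ ^ (2 - p.toReal)) ≤ 1 / 2 := by
      rw [div_le_iff₀ b0]; linarith [h2 j]
    have a2 : frob (A j) / (8 * κ) ≤ 1 / 2 := by rw [div_le_iff₀ f0]; linarith [hf j]
    rw [CC_col b0.le f0.le]
    linarith
  have key : ∀ A : I → Matrix (Fin d) (Fin d) ℝ, lpn p (fun e => √(vr A fun a => O a e)) ≤ √n →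
      (∀ v, vr (cols A Γ) v ≤ 2 * (Fintype.card (Fin d) *
        (2 * τ ^ (2 - p.toReal)) + Fintype.card I * τ ^ 2) * (v ⬝ᵥ v)) →
      lpn q (fun e => √(vr (cols A Γ) fun a => O a e)) ≤
        3 * √n * (d / n) ^ (p.toReal⁻¹ - q.toReal⁻¹) := fun A a1 a2 => by
    have s0 := Real.sqrt_pos.2 n1
    refine interp hLP hp hpq c2 (by positivity) ρ0
      (((hLP _ p p1 _).2.2.2.2.1 _ fun e => ?_).trans (a1.trans (by linarith))) fun e => ?_
    · rw [abs_of_nonneg (Real.sqrt_nonneg _), abs_of_nonneg (Real.sqrt_nonneg _)]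
      exact Real.sqrt_le_sqrt (SPL2x.vr_le g1 A _)
    · have a3 := a2 fun a => O a e
      have a4 : (fun a => O a e) ⬝ᵥ (fun a => O a e) = 1 :=
        (congrFun (congrFun hO e) e).trans (one_apply_eq e)
      rw [a4, Fintype.card_fin, ← hn] at a3
      rw [abs_of_nonneg (Real.sqrt_nonneg _), ← hτ, Real.sqrt_le_left (by positivity), mul_pow,
        mul_pow, Real.sq_sqrt n1.le]
      linarith [mul_pos n1 (pow_pos τ0 2)]
  refine ⟨key A ((hV O hO).1.trans hs) (SPL2x.vr_sup h1 g1 g2 (fun a v => ?_) h3), ?_⟩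
  · obtain ⟨m, e1, e2⟩ := CC_tr (G := G) (A := A) (f := 8 * κ) b0
      (Matrix.of fun a' b => if a' = a then v b else 0)
    exact ⟨m, e1.trans (by simp [mulVec, dotProduct]), e2.trans (by simp [dot_eq_sq])⟩
  · have e : (fun l => (cols A Γ l)ᵀ) = cols (fun i => (A i)ᵀ) Γ := funext fun l => lc_tr _ _
    rw [e]
    refine key _ ((hV O hO).2.trans hs) (SPL2x.vr_sup (G := fun i => (G i)ᵀ)
      (fun i => by rw [h1, transpose_add]) g1 g2 (fun a v => ?_) fun i => opLe_tr (h3 i))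
    obtain ⟨m, e1, e2⟩ := CC_tr (G := G) (A := A) (f := 8 * κ) b0
      (Matrix.of fun b a' => if a' = a then v b else 0)
    exact ⟨m, e1.trans (by simp [mulVec, dotProduct]), e2.trans (by simp [dot_eq_sq])⟩

end Pool.Agent.P.MP_1157dd_an.K

/-! The last rounds and the geometric rounds. -/

namespace Pool.Agent.P.MP_1157dd_an.K

open Matrix Filter Topology N
open scoped ENNReal

namespace GEOx

lemma z0 {d : ℕ} {q : ℝ≥0∞} (q1 : 1 ≤ q) : schatten q (0 : Matrix (Fin d) (Fin d) ℝ) = 0 := by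
  simpa using (hSCH d q q1 0).2.2.1 0

/-- one halving step on the free coordinates -/
lemma step {d : ℕ} {I : Type} [Fintype I] [DecidableEq I] {A : I → Matrix (Fin d) (Fin d) ℝ}
    {q : ℝ≥0∞} (q1 : 1 ≤ q) {x₀ : I → ℝ} (h0 : Cube x₀)
    {B : {i // i ∈ free x₀} → Matrix (Fin d) (Fin d) ℝ} {W : Submodule ℝ ({i // i ∈ free x₀} → ℝ)}
    {T : ℝ} {r : ℕ} (hT : 0 < T) (hr : 1 ≤ r) (hS : SVar q B T)
    (hc : (2 * d : ℝ) / 2 ^ r ≤ (free x₀).card)
    (hW : Cod W ((Fintype.card {i // i ∈ free x₀} : ℝ) / 8))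
    (hB : ∀ y ∈ W, lc B y = lc (fun i : {i // i ∈ free x₀} => A i) y) :
    ∃ x : I → ℝ, Cube x ∧ 2 * (free x).card ≤ (free x₀).card ∧
      schatten q (lc A (x - x₀)) ≤ 2 ^ 22 * T * √r := by
  have cI : Fintype.card {i // i ∈ free x₀} = (free x₀).card := Fintype.card_coe _
  obtain ⟨x, a1, a2, a3, a4⟩ := hENTS d {i // i ∈ free x₀} Unit (fun _ => B) q (fun _ => T)
    (fun _ => r) W (fun i => x₀ i) q1 (fun _ => hT) (fun _ => hr) (fun _ => hS)
    (by rw [cI, Finset.univ_unique, Finset.sum_singleton]; exact hc) hW (fun i => h0 i)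
  obtain ⟨z, b1, -, b3, -, b5⟩ := exists_ext h0 x a1
  refine ⟨z, b1, by rw [b3, ← cI]; exact a3, ?_⟩
  have a5 := a4 ()
  rw [hB _ a2] at a5
  have e : lc A (z - x₀) =
      lc (fun i : {i // i ∈ free x₀} => A i) (x - fun i : {i // i ∈ free x₀} => x₀ i) :=
    b5 A
  rw [e]
  exact a5

lemma form {d f a : ℝ} (hd : 0 < d) (hf : 0 < f) :
    √f * (d / f) ^ a = d ^ a * f ^ (1 / 2 - a) := by
  rw [Real.sqrt_eq_rpow, Real.div_rpow hd.le hf.le, Real.rpow_sub hf]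
  ring

lemma half {f g e : ℝ} (hg : 0 ≤ g) (h : 2 * g ≤ f) (he : 1 / 4 ≤ e) : 7 * g ^ e ≤ 6 * f ^ e := by
  have h1 : (2 * g) ^ e ≤ f ^ e := Real.rpow_le_rpow (by positivity) h (by linarith)
  rw [Real.mul_rpow zero_le_two hg] at h1
  have h2 : (7 / 6 : ℝ) ≤ 2 ^ e := by
    refine le_trans ?_ (Real.rpow_le_rpow_of_exponent_le one_le_two he)
    rw [one_div, Real.le_rpow_inv_iff_of_pos (by norm_num) (by norm_num) (by norm_num),
      show (4 : ℝ) = (4 : ℕ) by norm_num, Real.rpow_natCast]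
    norm_num
  have h3 : 0 ≤ g ^ e := Real.rpow_nonneg hg _
  nlinarith

lemma rounds {d : ℕ} {I : Type} [Fintype I] [DecidableEq I] {A : I → Matrix (Fin d) (Fin d) ℝ}
    {p q : ℝ≥0∞} (hp : 2 ≤ p) (hpq : p ≤ q) (ha : p.toReal⁻¹ - q.toReal⁻¹ ≤ 1 / 4) (hd : 0 < d)
    (hA : ∀ i, schatten p (A i) ≤ 1) (f : ℕ) : ∀ x₀ : I → ℝ, Cube x₀ → (free x₀).card = f →
    ∃ x, Cube x ∧ (free x).card ≤ d ∧ schatten q (lc A (x - x₀)) ≤ 35 * 2 ^ 22 *
      ((d : ℝ) ^ (p.toReal⁻¹ - q.toReal⁻¹) * (f : ℝ) ^ (1 / 2 - (p.toReal⁻¹ - q.toReal⁻¹))) := by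
  have q1 : 1 ≤ q := (one_le_two.trans hp).trans hpq
  have d0 : (0 : ℝ) < d := Nat.cast_pos.2 hd
  induction f using Nat.strong_induction_on with
  | _ f ih =>
    intro x₀ h0 hf
    rcases le_or_gt f d with h | h
    · refine ⟨x₀, h0, hf ▸ h, ?_⟩
      rw [sub_self, lc_zero, z0 q1]
      positivity
    have f0 : (0 : ℝ) < f := Nat.cast_pos.2 (by omega)
    have df : (d : ℝ) ≤ f := Nat.cast_le.2 h.le
    have cI : Fintype.card {i // i ∈ free x₀} = f := (Fintype.card_coe _).trans hf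
    obtain ⟨B, W, b1, b2, b3⟩ := hSPLIT d {i // i ∈ free x₀} (fun i => A i) p q hp hpq
      fun i => hA i
    rw [cI, min_eq_right ((div_le_one f0).2 df), mul_assoc, form d0 f0] at b3
    obtain ⟨a, ea⟩ : ∃ a, a = p.toReal⁻¹ - q.toReal⁻¹ := ⟨_, rfl⟩
    rw [← ea] at b3 ih ha ⊢
    obtain ⟨x₁, c1, c2, c3⟩ := step (A := A) q1 h0 (r := 1) (by positivity) le_rfl b3
      (by rw [hf]; linarith) b1 b2
    obtain ⟨x, e1, e2, e3⟩ := ih (free x₁).card (by omega) x₁ c1 rfl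
    refine ⟨x, e1, e2, ?_⟩
    have h1 := half (f := f) (g := (free x₁).card) (e := 1 / 2 - a) (Nat.cast_nonneg _)
      (by rw [← hf]; exact_mod_cast c2) (by linarith)
    have h2 := (hSCH d q q1 (lc A (x - x₁))).2.1 (lc A (x₁ - x₀))
    rw [← lc_add, sub_add_sub_cancel] at h2
    have h3 := mul_le_mul_of_nonneg_left h1 (Real.rpow_nonneg d0.le a)
    rw [Nat.cast_one, Real.sqrt_one] at c3
    nlinarith

end GEOx

open GEOx in
theorem p_FIN : S_FIN := by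
  intro d I _ _ A q x₀ hq hA h0 hf
  have q1 : 1 ≤ q := one_le_two.trans hq
  obtain ⟨ε, e1, e2⟩ := hROUNDS I (fun y => schatten q (lc A y)) (2 ^ 22) 4 d
    (fun y z => by rw [lc_add]; exact (hSCH d q q1 _).2.1 _) (by rw [lc_zero, z0 q1])
    (by positivity) le_rfl (by positivity) (fun j y hy h1 h2 => by
      have f0 : (0 : ℝ) < (free y).card := lt_of_le_of_lt (by positivity) h1
      have cI : Fintype.card {i // i ∈ free y} = (free y).card := Fintype.card_coe _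
      obtain ⟨x, c1, c2, c3⟩ := step (A := A) q1 hy (B := fun i => A i) (W := ⊤)
        (T := √(free y).card) (r := j + 2) (Real.sqrt_pos.2 f0) (by omega)
        (FDx.svar_mono (hVAR d _ _ q hq) (Real.sqrt_le_sqrt (by
          rw [← cI]
          simpa using Finset.sum_le_card_nsmul Finset.univ
            (fun i : {i // i ∈ free y} => schatten q (A i) ^ 2) 1
            fun i _ => pow_le_one₀ (hLP _ q q1 _).1 (hA i))))
        (le_trans (le_of_eq (by rw [pow_succ _ (j + 1)]; field_simp)) h1.le)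
        (cod_top.mono (by positivity)) fun _ _ => rfl
      refine ⟨x, c1, c2, c3.trans ?_⟩
      rw [mul_assoc, ← Real.sqrt_mul f0.le]
      refine mul_le_mul_of_nonneg_left (Real.sqrt_le_sqrt ?_) (by positivity)
      push_cast
      have : (0 : ℝ) ≤ j := Nat.cast_nonneg j
      nlinarith) x₀ h0 (by exact_mod_cast hf)
  refine ⟨ε, e1, e2.trans (le_of_eq ?_)⟩
  rw [Real.sqrt_mul zero_le_four, show (4 : ℝ) = 2 ^ 2 by norm_num, Real.sqrt_sq zero_le_two]
  ring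

open GEOx in
theorem p_GEO : S_GEO := by
  intro d I _ _ A p q hp hpq ha hd hn hA
  obtain ⟨x, e1, e2, e3⟩ := rounds hp hpq ha hd hA (Fintype.card I) 0 (fun i => by simp)
    (by simp [free])
  refine ⟨x, e1, e2, ?_⟩
  have d0 : (0 : ℝ) < d := Nat.cast_pos.2 hd
  have n0 : (0 : ℝ) < Fintype.card I := Nat.cast_pos.2 (by omega)
  rw [sub_zero, ← form d0 n0] at e3
  exact e3.trans (mul_le_mul_of_nonneg_right (by norm_num) (by positivity))

end Pool.Agent.P.MP_1157dd_an.K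

/-! The range of exponents close to the Hilbert-Schmidt to operator norm case. -/

namespace Pool.Agent.P.MP_1157dd_an.K

open Matrix Filter Topology N
open scoped ENNReal

namespace BANx

lemma psi_eq {d n a : ℝ} (hd : 0 < d) (hn : 0 < n) :
    √n * (d / n) ^ a = d ^ a * n ^ (1 / 2 - a) := by
  rw [Real.div_rpow hd.le hn.le, Real.sqrt_eq_rpow, Real.rpow_sub hn]
  ring

lemma psi_mono {d m n a : ℝ} (hd : 0 < d) (hm : 0 < m) (h : m ≤ n) (ha : a ≤ 1 / 2) :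
    √m * (d / m) ^ a ≤ √n * (d / n) ^ a := by
  rw [psi_eq hd hm, psi_eq hd (hm.trans_le h)]
  exact mul_le_mul_of_nonneg_left (Real.rpow_le_rpow hm.le h (by linarith)) (by positivity)

lemma psi_ge {d n a : ℝ} (hd : 0 < d) (h : d ≤ n) (ha : a ≤ 1 / 2) :
    √d ≤ √n * (d / n) ^ a := by
  have := psi_mono hd hd h ha
  rwa [div_self hd.ne', Real.one_rpow, mul_one] at this

lemma sch_zero {d : ℕ} {q : ℝ≥0∞} (hq : 1 ≤ q) :
    schatten q (0 : Matrix (Fin d) (Fin d) ℝ) = 0 := by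
  have := (hSCH d q hq 0).2.2.1 0
  rwa [zero_smul, abs_zero, zero_mul] at this

lemma sch_sum {d : ℕ} {q : ℝ≥0∞} (hq : 1 ≤ q) {I : Type} (s : Finset I)
    (X : I → Matrix (Fin d) (Fin d) ℝ) :
    schatten q (∑ i ∈ s, X i) ≤ ∑ i ∈ s, schatten q (X i) := by
  classical
  induction s using Finset.induction_on with
  | empty => simp [sch_zero hq]
  | insert i s hi ih =>
    rw [Finset.sum_insert hi, Finset.sum_insert hi]
    exact ((hSCH d q hq _).2.1 _).trans (by linarith)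

/-- rounding of all free coordinates -/
lemma round {d : ℕ} {q : ℝ≥0∞} (hq : 1 ≤ q) {I : Type} [Fintype I]
    (A : I → Matrix (Fin d) (Fin d) ℝ) (hA : ∀ i, schatten q (A i) ≤ 1) {x : I → ℝ}
    (hx : Cube x) (h0 : lc A x = 0) :
    ∃ z, Cube z ∧ (free z).card = 0 ∧ schatten q (lc A z) ≤ (free x).card := by
  classical
  refine ⟨fun i => if 0 ≤ x i then 1 else -1, fun i => ?_, ?_, ?_⟩
  · dsimp only
    split_ifs <;> simp
  · rw [Finset.card_eq_zero, Finset.eq_empty_iff_forall_notMem]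
    intro i hi
    rw [mem_free] at hi
    split_ifs at hi <;> simp at hi
  · set z : I → ℝ := fun i => if 0 ≤ x i then 1 else -1 with hz
    have e : lc A z = ∑ i ∈ free x, (z i - x i) • A i := by
      have : lc A z = lc A (z - x) := by
        rw [show lc A z = lc A (z - x + x) by rw [sub_add_cancel], lc_add, h0, add_zero]
      rw [this, lc]
      refine (Finset.sum_subset (Finset.subset_univ _) fun i _ hi => ?_).symm
      rw [mem_free, not_lt] at hi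
      have h1 : |x i| = 1 := le_antisymm (hx i) hi
      have : z i - x i = 0 := by
        simp only [hz]
        split_ifs with h
        · rw [abs_of_nonneg h] at h1; linarith
        · rw [abs_of_neg (not_le.1 h)] at h1; linarith
      rw [Pi.sub_apply, this, zero_smul]
    rw [e]
    refine (sch_sum hq _ _).trans ?_
    calc _ ≤ ∑ _i ∈ free x, (1 : ℝ) := Finset.sum_le_sum fun i _ => ?_
      _ = _ := by simp
    rw [(hSCH d q hq _).2.2.1]
    have h1 := abs_le.1 (hx i)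
    have : |z i - x i| ≤ 1 := by
      simp only [hz]
      split_ifs with h
      · exact abs_le.2 ⟨by linarith, by linarith⟩
      · exact abs_le.2 ⟨by linarith, by linarith [not_le.1 h]⟩
    exact mul_le_one₀ this ((hLP _ q hq _).1) (hA i)

lemma lpn_one {d : ℕ} {q : ℝ≥0∞} (hq : 1 ≤ q) :
    lpn q (fun _ : Fin d => (1 : ℝ)) ≤ (d : ℝ) ^ q.toReal⁻¹ := by
  by_cases h : q = ∞
  · refine (hLP _ q hq _).2.2.2.2.2.2.2 h _ (by positivity) fun _ => ?_
    simp [h]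
  · have h1 : 0 < q.toReal := ENNReal.toReal_pos (by positivity) h
    rw [(hLP _ q hq _).2.2.2.2.2.2.1 h _ (by positivity),
      Real.rpow_inv_rpow (Nat.cast_nonneg d) h1.ne']
    simp

/-- the number of layers -/
lemma layers {d u Q : ℝ} (hd : 1 ≤ d) (hu : 1 ≤ u) (hdu : u ^ 16 = d) (h0 : 0 ≤ Q)
    (h1 : Q ≤ 1) : ∃ S : ℕ, d ^ Q ≤ 2 ^ S ∧ (2 : ℝ) ^ S ≤ 2 * d ^ Q ∧ (S + 1 : ℝ) ≤ 26 * u := by
  obtain ⟨n, a1, a2⟩ := exists_nat_pow_near (Real.one_le_rpow hd h0) (one_lt_two (α := ℝ))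
  refine ⟨n + 1, a2.le, by rw [pow_succ]; linarith, ?_⟩
  have a3 : (2 : ℝ) ^ n ≤ u ^ 16 := by
    rw [hdu]
    exact a1.trans (by simpa using Real.rpow_le_rpow_of_exponent_le hd h1)
  have a4 := Real.log_le_log (by positivity) a3
  rw [Real.log_pow, Real.log_pow] at a4
  have a5 := Real.log_le_sub_one_of_pos (zero_lt_one.trans_le hu)
  have a6 := Real.log_two_gt_d9
  have a7 : (n : ℝ) * 0.6931471803 ≤ n * Real.log 2 :=
    mul_le_mul_of_nonneg_left a6.le (Nat.cast_nonneg n)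
  push_cast at a4 ⊢
  linarith

lemma budget {d u P Q W T : ℝ} (hd : 1 ≤ d) (hdu : u ^ 16 = d) (ha : 1 / 4 ≤ P - Q)
    (h0 : 0 ≤ W) (hW : W ≤ 2 * d ^ Q) (hT : 3 * √d ≤ T) :
    8 * d ^ (1 - 2 * P) * W ^ 2 * u ^ 8 ≤ 8 * T ^ 2 := by
  have hd0 : 0 < d := zero_lt_one.trans_le hd
  have a1 : u ^ 8 = d ^ (1 / 2 : ℝ) := by
    rw [← Real.sqrt_eq_rpow, ← hdu, show u ^ 16 = (u ^ 8) ^ 2 by ring, Real.sqrt_sq (by positivity)]
  have a2 : W ^ 2 ≤ 4 * (d ^ Q * d ^ Q) := by nlinarith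
  have a3 : d ^ (1 - 2 * P) * (d ^ Q * d ^ Q) * d ^ (1 / 2 : ℝ) ≤ d := by
    rw [← Real.rpow_add hd0, ← Real.rpow_add hd0, ← Real.rpow_add hd0]
    simpa using Real.rpow_le_rpow_of_exponent_le hd
      (by linarith : 1 - 2 * P + (Q + Q) + 1 / 2 ≤ 1)
  have a4 : 9 * d ≤ T ^ 2 := by
    have := pow_le_pow_left₀ (by positivity) hT 2
    rwa [mul_pow, Real.sq_sqrt hd0.le, show (3 : ℝ) ^ 2 = 9 by norm_num] at this
  have a5 : d ^ (1 - 2 * P) * W ^ 2 * d ^ (1 / 2 : ℝ) ≤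
      d ^ (1 - 2 * P) * (4 * (d ^ Q * d ^ Q)) * d ^ (1 / 2 : ℝ) := by gcongr
  rw [a1]
  nlinarith

end BANx

open BANx in
theorem p_BAN (hKOMS : S_KOMS) (hSPL2 : S_SPL2) (hRED : S_RED) : S_BAN := by
  obtain ⟨K, hK0, hK⟩ : ∃ K : ℝ, 0 ≤ K ∧ ∀ u : ℝ, 0 ≤ u → u < 2 ^ 60 → u ^ 32 ≤ K :=
    ⟨(2 ^ 60) ^ 32, by positivity, fun u h0 h => pow_le_pow_left₀ h0 h.le 32⟩
  refine ⟨K + 3 * 2 ^ 15, by positivity, fun d I _ _ A p q hp hpq ha hd hdI hA => ?_⟩
  have hp1 : 1 ≤ p := one_le_two.trans hp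
  have hq1 : 1 ≤ q := hp1.trans hpq
  have hQ : 0 ≤ q.toReal⁻¹ := by positivity
  have hpt : p ≠ ∞ := fun h => by
    rw [h, ENNReal.toReal_top, _root_.inv_zero] at ha
    linarith
  have hP : p.toReal⁻¹ ≤ 1 / 2 := by
    rw [one_div]
    exact inv_anti₀ two_pos (by simpa using ENNReal.toReal_mono hpt hp)
  have ha2 : p.toReal⁻¹ - q.toReal⁻¹ ≤ 1 / 2 := by linarith
  have hd1 : (1 : ℝ) ≤ d := by exact_mod_cast hd
  have hd0 : (0 : ℝ) < d := zero_lt_one.trans_le hd1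
  have hdn : (d : ℝ) ≤ Fintype.card I := by exact_mod_cast hdI
  have hψ := psi_ge hd0 hdn ha2
  have hψ1 := (Real.one_le_sqrt.2 hd1).trans hψ
  obtain ⟨x, hx, h0, hf⟩ := hRED (Fin d) I A
  rw [Fintype.card_fin] at hf
  by_cases hfd : (free x).card ≤ d
  · refine ⟨x, hx, hfd, ?_⟩
    rw [h0, sch_zero hq1]
    positivity
  obtain ⟨u, hu0, hdu⟩ : ∃ u : ℝ, 0 ≤ u ∧ u ^ 16 = d :=
    ⟨(d : ℝ) ^ ((16 : ℕ) : ℝ)⁻¹, by positivity, Real.rpow_inv_natCast_pow hd0.le (by norm_num)⟩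
  have hf2 : ((free x).card : ℝ) ≤ u ^ 32 := by
    rw [show u ^ 32 = (u ^ 16) ^ 2 by ring, hdu]
    exact_mod_cast hf
  by_cases hu : u < 2 ^ 60
  · obtain ⟨z, b1, b2, b3⟩ := round hq1 A
      (fun i => ((hLP _ p hp1 _).2.2.2.2.2.1 q hpq).trans (hA i)) hx h0
    refine ⟨z, b1, by omega, b3.trans (hf2.trans ((hK u hu0 hu).trans ?_))⟩
    nlinarith
  rw [not_lt] at hu
  have hu1 : 1 ≤ u := le_trans (by norm_num) hu
  have hc : Fintype.card {i // i ∈ free x} = (free x).card := Fintype.card_coe _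
  have hdf : (d : ℝ) ≤ (free x).card := by exact_mod_cast (not_le.1 hfd).le
  obtain ⟨C, c1, c2, c3⟩ := hSPL2 d {i // i ∈ free x} (fun i => A i) p q hp hpq hpt hd
    (by rw [hc]; exact (not_le.1 hfd).le) fun i => hA i
  rw [hc] at c3
  obtain ⟨S, s1, s2, s3⟩ := layers hd1 hu1 hdu hQ (by linarith)
  have hψf := psi_ge hd0 hdf ha2
  have hsd : 0 < √(d : ℝ) := Real.sqrt_pos.2 hd0
  obtain ⟨y, y1, y2, y3⟩ := hKOMS d {i // i ∈ free x} _ (fun i => A i) C (fun i => x i) q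
    (3 * √((free x).card) * ((d : ℝ) / (free x).card) ^ (p.toReal⁻¹ - q.toReal⁻¹))
    (8 * (d : ℝ) ^ (1 - 2 * p.toReal⁻¹)) u S hq1 (by linarith) hu hdu.ge (by rw [hc]; exact hf2)
    s3 ((lpn_one hq1).trans s1) c1 (fun i => hx i) c2
    (by
      rw [show (4 : ℝ) ^ S = (2 ^ S) ^ 2 by rw [← pow_mul, mul_comm, pow_mul]; norm_num]
      exact budget hd1 hdu ha (by positivity) s2 (by linarith))
    fun Γ => c3 _ Γ
  obtain ⟨z, b1, -, b3, -, b5⟩ := exists_ext hx y y1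
  refine ⟨z, b1, ?_, ?_⟩
  · rw [b3]
    have : u ^ 15 ≤ u ^ 16 := pow_le_pow_right₀ hu1 (by norm_num)
    exact_mod_cast y2.trans (this.trans hdu.le)
  · have e : lc A z = lc (fun i : {i // i ∈ free x} => A i) (y - fun i : {i // i ∈ free x} => x i) := by
      rw [show lc A z = lc A (z - x + x) by rw [sub_add_cancel], lc_add, h0, add_zero, lc, b5 A]
      rfl
    have hm := psi_mono hd0 (hd0.trans_le hdf)
      (by exact_mod_cast Finset.card_le_univ (free x) : ((free x).card : ℝ) ≤ Fintype.card I) ha2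
    rw [e]
    refine y3.trans ?_
    have := mul_nonneg hK0 (zero_le_one.trans hψ1)
    rw [add_mul, mul_assoc 3]
    linarith

end Pool.Agent.P.MP_1157dd_an.K

/-! The final assembly. -/

namespace Pool.Agent.P.MP_1157dd_an.K

open Matrix Filter Topology N
open scoped ENNReal

theorem p_FE (hFIN : S_FIN) (hGEO : S_GEO) (hBAN : S_BAN) : S_FE := by
  obtain ⟨C₁, h1⟩ := hFD
  obtain ⟨c, c0, h2⟩ := hBAN
  refine ⟨|C₁| + (c + 2 ^ 29 + 2 ^ 26), fun p q hp hpq m n A hA => ?_⟩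
  have p1 : 1 ≤ p := le_trans one_le_two hp
  have q1 : 1 ≤ q := p1.trans hpq
  have mono : ∀ X : Matrix (Fin m) (Fin m) ℝ, schatten q X ≤ schatten p X := fun X =>
    (hLP _ p p1 (sv X)).2.2.2.2.2.1 q hpq
  rcases le_or_gt n m with hnm | hmn
  · obtain ⟨ε, e1, e2⟩ := h1 p hp m n A hA
    refine ⟨ε, e1, ?_⟩
    have e3 := e2 n
    rw [Finset.filter_true_of_mem fun i _ => i.2] at e3
    rcases Nat.eq_zero_or_pos n with rfl | n0
    · simpa using (mono _).trans e3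
    have : min 1 ((m : ℝ) / n) = 1 :=
      min_eq_left ((one_le_div (by exact_mod_cast n0)).2 (by exact_mod_cast hnm))
    rw [this, Real.one_rpow, mul_one]
    refine ((mono _).trans e3).trans (mul_le_mul_of_nonneg_right ?_ (Real.sqrt_nonneg _))
    have := le_abs_self C₁
    linarith
  have n0 : (0 : ℝ) < n := by exact_mod_cast (Nat.zero_le m).trans_lt hmn
  have hd : (m : ℝ) / n ≤ 1 := (div_le_one n0).2 (by exact_mod_cast hmn.le)
  have d0 : 0 ≤ (m : ℝ) / n := by positivity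
  rcases Nat.eq_zero_or_pos m with rfl | m0
  · refine ⟨fun _ => 1, fun _ => Or.inl rfl, ?_⟩
    rw [Subsingleton.elim (∑ i, (1 : ℝ) • A i) 0, GEOx.z0 q1]
    have : 0 ≤ min 1 (((0 : ℕ) : ℝ) / n) := le_min zero_le_one d0
    positivity
  have hmin : (min p (ENNReal.ofReal (max 1 (Real.log ((m : ℝ) / n))))).toReal = 1 := by
    rw [max_eq_left ((Real.log_nonpos d0 hd).trans zero_le_one), ENNReal.ofReal_one,
      min_eq_right p1, ENNReal.toReal_one]
  have cn : m ≤ Fintype.card (Fin n) := by simpa using hmn.le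
  have ha : p.toReal⁻¹ - q.toReal⁻¹ ≤ 1 / 2 := by
    have : p.toReal⁻¹ ≤ 1 / 2 := by
      rw [← ENNReal.toReal_inv, show (1 / 2 : ℝ) = ((2 : ℝ≥0∞)⁻¹).toReal by simp]
      exact ENNReal.toReal_mono (by simp) (ENNReal.inv_le_inv.2 hp)
    have : 0 ≤ q.toReal⁻¹ := by positivity
    linarith
  set a := p.toReal⁻¹ - q.toReal⁻¹
  obtain ⟨x, x1, x2, x3⟩ : ∃ x, Cube x ∧ (free x).card ≤ m ∧
      schatten q (lc A x) ≤ (c + 2 ^ 29) * (√n * ((m : ℝ) / n) ^ a) := by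
    have hz : 0 ≤ √n * ((m : ℝ) / n) ^ a := by positivity
    rcases le_total a (1 / 4) with h | h
    · obtain ⟨x, x1, x2, x3⟩ := hGEO m (Fin n) A p q hp hpq h m0 cn hA
      rw [Fintype.card_fin] at x3
      exact ⟨x, x1, x2, x3.trans (mul_le_mul_of_nonneg_right (by linarith) hz)⟩
    · obtain ⟨x, x1, x2, x3⟩ := h2 m (Fin n) A p q hp hpq h m0 cn hA
      rw [Fintype.card_fin] at x3
      exact ⟨x, x1, x2, x3.trans (mul_le_mul_of_nonneg_right (by linarith) hz)⟩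
  obtain ⟨ε, e1, e2⟩ := hFIN m (Fin n) A q x (hp.trans hpq) (fun i => (mono _).trans (hA i)) x1 x2
  refine ⟨ε, e1, ?_⟩
  have e : ∑ i, ε i • A i = lc A x + lc A (ε - x) := by
    simp only [lc, ← Finset.sum_add_distrib, ← add_smul, Pi.sub_apply, add_sub_cancel]
  have hs : √m ≤ √n * ((m : ℝ) / n) ^ a := by
    have := Real.rpow_le_rpow_of_exponent_ge (by positivity : 0 < (m : ℝ) / n) hd ha
    rw [← Real.sqrt_eq_rpow] at this
    calc √m = √n * √((m : ℝ) / n) := by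
          rw [← Real.sqrt_mul n0.le, mul_div_cancel₀ _ n0.ne']
      _ ≤ _ := mul_le_mul_of_nonneg_left this (Real.sqrt_nonneg _)
  rw [hmin, mul_one, min_eq_right hd, e, mul_assoc]
  have := (hSCH m q q1 (lc A x)).2.1 (lc A (ε - x))
  have := mul_nonneg (abs_nonneg C₁) ((Real.sqrt_nonneg _).trans hs)
  linarith

end Pool.Agent.P.MP_1157dd_an.K
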