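import Pool.Agent.P.MP_1157dd_an.K.Base

/-! Consequences of local optimality. -/

namespace Pool.Agent.P.MP_1157dd_an.K

open Matrix Filter Topology N
open scoped ENNReal

namespace COREx

variable {D I L K : Type} [Fintype D] [Fintype I] [Fintype L] [Fintype K]

section tw

variable (b : L → Matrix D D ℝ) (g : L → ℝ) (U : Matrix D D ℝ)

lemma TW_addU (V : Matrix D D ℝ) : TW b g (U + V) = TW b g U + TW b g V := by
  simp only [TW, mul_add, add_mul, smul_add, Finset.sum_add_distrib]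

lemma TW_smulU (a : ℝ) : TW b g (a • U) = a • TW b g U := by
  simp only [TW, Finset.smul_sum, mul_smul_comm, smul_mul_assoc, smul_comm a]

lemma TW_subg (g' : L → ℝ) : TW b (g - g') U = TW b g U - TW b g' U := by
  simp only [TW, Pi.sub_apply, sub_smul, Finset.sum_sub_distrib]

lemma TW_smulg (a : ℝ) : TW b (a • g) U = a • TW b g U := by
  simp only [TW, Finset.smul_sum, Pi.smul_apply, smul_eq_mul, mul_smul]

lemma TW_vecMul (α : Matrix I L ℝ) (y : I → ℝ) :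
    TW b (y ᵥ* α) U = ∑ i, y i • TW b (α i) U := by
  simp only [TW, vecMul, dotProduct, Finset.sum_smul, Finset.smul_sum, mul_smul]
  exact Finset.sum_comm

lemma TW_lc (Us : I → Matrix D D ℝ) (y : I → ℝ) :
    TW b g (lc Us y) = ∑ i, y i • TW b g (Us i) := by
  simp only [← TW_smulU]
  simp only [TW, lc, Finset.mul_sum, Finset.sum_mul, Finset.smul_sum]
  exact Finset.sum_comm

lemma TW_symm {b : L → Matrix D D ℝ} (hb : ∀ l, (b l)ᵀ = b l) {U : Matrix D D ℝ} (hU : Uᵀ = U) :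
    (TW b g U)ᵀ = TW b g U := by
  simp [TW, transpose_sum, transpose_mul, hb, hU, mul_assoc]

variable [DecidableEq L]

omit [Fintype D] in
lemma lc_diag (s : L → ℝ) (l : L) : lc b (fun i => diagonal s i l) = s l • b l := by
  rw [lc, Finset.sum_eq_single l (fun i _ hi => by simp [hi]) (by simp), diagonal_apply_eq]

lemma TW_eq_TT {g : L → ℝ} (hg : ∀ l, 0 ≤ g l) : TW b g = TT b (diagonal fun l => √(g l)) := by
  funext U
  simp only [TW, TT, lc_diag, smul_mul_assoc, mul_smul_comm, smul_smul, Real.mul_self_sqrt (hg _)]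

end tw

variable [DecidableEq D]

lemma fo_feas {b : L → Matrix D D ℝ} {g : L → ℝ} {U : Matrix D D ℝ} {δ : ℝ}
    (hP : PD (δ • TW b g 1 + (U - TW b g U))) :
    ∀ᶠ t in 𝓝[>] (0 : ℝ), ∀ u, 0 ≤ qf (TW b g 1 -
      TW b ((1 - t * δ) • g) (1 + t • U) + iv (t • U)) u := by
  let N : ℝ → Matrix D D ℝ := fun t => δ • TW b g 1 + (U - TW b g U) +
    t • (δ • TW b g U - U * U) + t ^ 2 • (U * U * U) - (2 * t ^ 3) • (U * U * (U * U))
  have hN : ∀ᶠ t in 𝓝 (0 : ℝ), PD (N t) := eventually_PD (by fun_prop) (by simpa [N] using hP)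
  filter_upwards [nhdsWithin_le_nhds hN, self_mem_nhdsWithin] with t hNt ht0 u
  have e : TW b g 1 - TW b ((1 - t * δ) • g) (1 + t • U) + iv (t • U) = t • N t := by
    simp only [TW_smulg, TW_addU, TW_smulU, iv, N, smul_mul_assoc, mul_smul_comm]
    module
  rw [e, qf_smul]
  exact mul_nonneg (le_of_lt ht0) (hNt.nonneg u)

variable {B : K → I → Matrix D D ℝ} {b : K → L → Matrix D D ℝ} {ζ : K → D → ℝ} {x : I → ℝ}
  {w : (I → ℝ) → L → ℝ} {p : ℕ} {c s Λ lam : ℝ}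

lemma expand (hζ : ∀ k e, 0 < ζ k e) (hp : 1 ≤ p) {U : K → Matrix D D ℝ}
    (hU : ∀ k, (U k)ᵀ = U k) (V : K → Matrix D D ℝ) (k : K) :
    ∃ (g : ℝ) (r : ℝ → ℝ), Continuous r ∧
      g ≤ ((p : ℝ) - 1) / 2 * (p * (diagonal (ζ k) ^ p * (U k * U k)).trace) +
        p * (diagonal (ζ k) ^ p * V k).trace ∧
      ∀ t : ℝ, ((diagonal (ζ k) * (1 + (t • U k + t ^ 2 • V k))) ^ p).trace -
        (diagonal (ζ k) ^ p).trace =
          t * (p * (diagonal (ζ k) ^ p * U k).trace) + t ^ 2 * g + t ^ 3 * r t := by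
  obtain ⟨g, r, h1, h2, h3⟩ := obj_expand (fun i => (hζ k i).le) (hU k) (V k) hp (Nat.cast_nonneg p)
  refine ⟨g, r, h1, h2, fun t => ?_⟩
  rw [← h3, div_self (by exact_mod_cast (by omega : p ≠ 0)), one_mul]

lemma fo_obj (h : LocK B b ζ x w p c s Λ lam) (hζ : ∀ k e, 0 < ζ k e) (hp : 1 ≤ p)
    (hx : Cube x) (hs0 : 0 ≤ s) (hs1 : s ≤ 1) {δ : ℝ} (hδ : 0 ≤ δ) {U : K → Matrix D D ℝ}
    (hU : ∀ k, (U k)ᵀ = U k)
    (hf : ∀ k, ∀ᶠ t in 𝓝[>] (0 : ℝ), ∀ u, 0 ≤ qf (TW (b k) (fun l => c * s * w x l) 1 -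
      TW (b k) ((1 - t * δ) • fun l => c * s * w x l) (1 + t • U k) + iv (t • U k)) u) :
    0 ≤ ∑ k, p * (diagonal (ζ k) ^ p * U k).trace + δ * (Λ * s) := by
  choose g r hr hg he using expand hζ hp hU 0
  have hE := eventually_all.2 fun k =>
    half_eventually (E := fun t : ℝ => t • U k) (by fun_prop) (by simp)
  have h1 : ∀ᶠ t in 𝓝 (0 : ℝ), t * δ < 1 :=
    (continuous_id.mul continuous_const).continuousAt.eventually_lt continuousAt_const (by simp)
  have := nonneg_of_eventually (k := 1) (f := fun t =>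
    ∑ k, (p * (diagonal (ζ k) ^ p * U k).trace + t * g k + t ^ 2 * r k t) + δ * (Λ * s))
    (by fun_prop) ?_
  · simpa using this
  filter_upwards [nhdsWithin_le_nhds hE, eventually_all.2 hf, nhdsWithin_le_nhds h1,
    self_mem_nhdsWithin] with t h1 h2 h3 h4
  have h5 : 0 ≤ t * δ := mul_nonneg (le_of_lt h4) hδ
  have := h 0 (s * (1 - t * δ)) ((1 - t * δ) • fun l => c * s * w x l) (fun k => t • U k)
    (by simpa using hx) (mul_nonneg hs0 (by linarith)) (by nlinarith)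
    (fun l => le_of_eq (by simp only [add_zero, Pi.smul_apply, smul_eq_mul]; ring))
    (fun k => by rw [transpose_smul, hU]) h1 (by simpa only [lc_zero, sub_zero] using h2)
  have e := fun k => he k t
  simp only [Pi.zero_apply, smul_zero, add_zero] at e
  simp only [e, add_zero, Pi.zero_apply, sub_self, mul_zero, sub_zero] at this
  refine this.trans (le_of_eq ?_)
  rw [mul_add, Finset.mul_sum, sub_eq_add_neg]
  congr 1
  · exact Finset.sum_congr rfl fun k _ => by ring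
  · ring

/-- second order condition -/
lemma second (h : LocK B b ζ x w p c s Λ lam) (hζ : ∀ k e, 0 < ζ k e) (hp : 1 ≤ p)
    (hs0 : 0 ≤ s) (hs1 : s ≤ 1) {y : I → ℝ} {a β : L → ℝ}
    (hc : ∀ᶠ t in 𝓝 (0 : ℝ), Cube (x + t • y) ∧ ∀ l, c * s * w (x + t • y) l ≤
      c * s * w x l - t * a l - t ^ 2 * β l)
    {U V : K → Matrix D D ℝ} (hU : ∀ k, (U k)ᵀ = U k) (hV : ∀ k, (V k)ᵀ = V k)
    (h1 : ∀ k, U k - TW (b k) (fun l => c * s * w x l) (U k) = lc (B k) y - TW (b k) a 1)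
    (h2 : ∀ k, PD (V k - TW (b k) (fun l => c * s * w x l) (V k) - U k * U k +
      TW (b k) a (U k) + TW (b k) β 1)) :
    lam * (y ⬝ᵥ y) ≤
      ∑ k, (((p : ℝ) - 1) / 2 * (p * (diagonal (ζ k) ^ p * (U k * U k)).trace) +
        p * (diagonal (ζ k) ^ p * V k).trace) := by
  choose g r hr hg he using expand hζ hp hU V
  refine le_trans ?_ (Finset.sum_le_sum fun k _ => hg k)
  let F : K → ℝ → Matrix D D ℝ := fun k t => U k + t • V k
  let N : K → ℝ → Matrix D D ℝ := fun k t => V k - TW (b k) (fun l => c * s * w x l) (V k) -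
    F k t * F k t + TW (b k) a (U k) + TW (b k) β 1 +
    t • (TW (b k) a (V k) + TW (b k) β (U k) + F k t * F k t * F k t) +
    t ^ 2 • (TW (b k) β (V k) - (2 : ℝ) • (F k t * F k t * (F k t * F k t)))
  have hN : ∀ᶠ t in 𝓝 (0 : ℝ), ∀ k, PD (N k t) := eventually_all.2 fun k =>
    eventually_PD (N := N k) (by fun_prop) (by simpa [N, F] using h2 k)
  have hE := eventually_all.2 fun k =>
    half_eventually (E := fun t : ℝ => t • U k + t ^ 2 • V k) (by fun_prop) (by simp)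
  obtain ⟨α, hα⟩ : ∃ α : ℝ, α = ∑ k, p * (diagonal (ζ k) ^ p * U k).trace -
    2 * lam * (x ⬝ᵥ y) := ⟨_, rfl⟩
  obtain ⟨γ, hγ⟩ : ∃ γ : ℝ, γ = ∑ k, g k - lam * (y ⬝ᵥ y) := ⟨_, rfl⟩
  have key : ∀ᶠ t in 𝓝 (0 : ℝ), 0 ≤ t * α + t ^ 2 * γ + t ^ 3 * ∑ k, r k t := by
    filter_upwards [hN, hE, hc] with t hNt hEt hct
    have := h (t • y) s ((fun l => c * s * w x l) - t • a - t ^ 2 • β)
      (fun k => t • U k + t ^ 2 • V k) hct.1 hs0 hs1 hct.2
      (fun k => by rw [transpose_add, transpose_smul, transpose_smul, hU, hV]) hEt ?_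
    · simp only [he] at this
      refine this.trans (le_of_eq ?_)
      have e : ∑ i, (x i + (t • y) i) ^ 2 - ∑ i, x i ^ 2 =
          2 * t * (x ⬝ᵥ y) + t ^ 2 * (y ⬝ᵥ y) := by
        simp only [dotProduct, Finset.mul_sum, ← Finset.sum_sub_distrib,
          ← Finset.sum_add_distrib, Pi.smul_apply, smul_eq_mul]
        exact Finset.sum_congr rfl fun i _ => by ring
      rw [e, hα, hγ, Finset.sum_add_distrib, Finset.sum_add_distrib, ← Finset.mul_sum _ _ t,
        ← Finset.mul_sum _ _ (t ^ 2), ← Finset.mul_sum _ _ (t ^ 3)]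
      ring
    · intro k u
      have hF : t • U k + t ^ 2 • V k = t • F k t := by simp only [F]; module
      have e : TW (b k) (fun l => c * s * w x l) 1 -
          TW (b k) ((fun l => c * s * w x l) - t • a - t ^ 2 • β) (1 + (t • U k + t ^ 2 • V k)) -
          lc (B k) (t • y) +
          (t • U k + t ^ 2 • V k - t • F k t * t • F k t + t • F k t * t • F k t * t • F k t -
          (2 : ℝ) • (t • F k t * t • F k t * (t • F k t * t • F k t))) = t ^ 2 • N k t := by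
        rw [TW_subg, TW_subg, TW_smulg _ _ _ t, TW_smulg _ _ _ (t ^ 2), lc_smul,
          sub_eq_iff_eq_add.1 (h1 k).symm]
        simp only [N, TW_addU, TW_smulU, smul_mul_assoc, mul_smul_comm]
        module
      rw [← hF] at e
      rw [iv, e, qf_smul]
      exact mul_nonneg (sq_nonneg t) ((hNt k).nonneg u)
  have key2 : ∀ᶠ t in 𝓝 (0 : ℝ), 0 ≤ (-t) * α + (-t) ^ 2 * γ + (-t) ^ 3 * ∑ k, r k (-t) := by
    have : Tendsto (fun t : ℝ => -t) (𝓝 0) (𝓝 0) := by simpa using (continuous_neg.tendsto (0 : ℝ))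
    exact this.eventually key
  have := nonneg_of_eventually (k := 2)
    (f := fun t => 2 * γ + t * (∑ k, r k t - ∑ k, r k (-t))) (by fun_prop) ?_
  · simp only [zero_mul, add_zero] at this
    linarith
  filter_upwards [nhdsWithin_le_nhds key, nhdsWithin_le_nhds key2] with t a1 a2
  linarith

variable [DecidableEq L]

lemma exists_G (h : LocK B b ζ x w p c s Λ lam) (hb : ∀ k l, (b k l)ᵀ = b k l)
    (hζ : ∀ k e, 0 < ζ k e) (hp : 1 ≤ p) (hx : Cube x) (hs0 : 0 ≤ s) (hs1 : s ≤ 1)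
    (hg : ∀ l, 0 ≤ c * s * w x l) (k : K) : ∃ G : Matrix D D ℝ,
      Gᵀ * G - TW (b k) (fun l => c * s * w x l) (Gᵀ * G) = (p : ℝ) • diagonal (ζ k) ^ p ∧
      ∀ E : Matrix D D ℝ, Eᵀ = E →
        ∃ U : Matrix D D ℝ, Uᵀ = U ∧ U - TW (b k) (fun l => c * s * w x l) U = E := by
  classical
  obtain ⟨ρ, hρs, hρ0, hρ⟩ := exists_dual' (ζ := ζ k) (p := p) (μ := p)
    (Γ := diagonal fun l => √(c * s * w x l)) (κ₀ := Λ * s) (hb k) (by
    intro U δ hU hδ hP
    rw [← TW_eq_TT _ hg] at hP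
    have := fo_obj h hζ hp hx hs0 hs1 hδ (U := Pi.single k U)
      (fun k' => by by_cases e : k' = k <;> simp [Pi.single_apply, e, hU]) (fun k' => ?_)
    · rw [Finset.sum_eq_single k (fun k' _ e => by simp [e]) (by simp), Pi.single_eq_same] at this
      linarith
    · by_cases e : k' = k
      · subst e
        rw [Pi.single_eq_same]
        exact fo_feas hP
      · filter_upwards [self_mem_nhdsWithin] with t ht0 u
        rw [Pi.single_eq_of_ne e, TW_smulg]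
        simp only [iv, smul_zero, add_zero, mul_zero, sub_zero, qf_sub, qf_smul]
        have h3 : 0 ≤ qf (TW (b k') (fun l => c * s * w x l) 1) u := by
          rw [TW_eq_TT _ hg]
          exact TT_nonneg (hb k') _ (fun u => by rw [qf_one]; exact dot_nonneg u) u
        nlinarith [mul_nonneg (mul_nonneg (le_of_lt ht0) hδ) h3])
  have hPD : PD (ρ - TT (b k) (diagonal fun l => √(c * s * w x l)) ρ) := by
    rw [hρ, diagonal_pow]
    exact (PD_diagonal fun e => pow_pos (hζ k e) _).smul (by exact_mod_cast hp)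
  obtain ⟨Y, -, -, -, -, hY, -, -⟩ := spec_pos hρs (by
    have := hPD.add (TT_nonneg (hb k) (diagonal fun l => √(c * s * w x l)) hρ0)
    rwa [sub_add_cancel] at this)
  rw [TW_eq_TT _ hg]
  exact ⟨Yᵀ, by rw [transpose_transpose, hY, hρ], fun E hE => exists_solve (hb k) hρs hρ0 hPD hE⟩

omit [DecidableEq L] in
/-- the Hilbert-Schmidt count -/
lemma block {b : L → Matrix D D ℝ} {G : Matrix D D ℝ} {ω m : ℝ} (hm : 0 < m)
    (hlow : ∀ U, frob U ≤ m * frob (G * U)) (hω : ∀ r, frob (lc b r) ≤ ω * (r ⬝ᵥ r)) :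
    ∃ N : Submodule ℝ (D × D → ℝ), Cod N (4 * m * (ω * ∑ l, frob (G * b l))) ∧
      ∀ U : Matrix D D ℝ, (fun q : D × D => U q.1 q.2) ∈ N →
        frob (G * U) ≤ 4 * frob (G * (U - ∑ l, b l * U * b l)) := by
  let Lm : (D × D → ℝ) →ₗ[ℝ] Matrix D D ℝ :=
    { toFun := fun u => G * ∑ l, b l * (Matrix.of fun a b => u (a, b)) * b l
      map_add' := fun u v => by
        rw [← mul_add, ← Finset.sum_add_distrib]
        congr 1
        refine Finset.sum_congr rfl fun k _ => ?_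
        rw [← add_mul, ← mul_add]; rfl
      map_smul' := fun a u => by
        rw [RingHom.id_apply, ← mul_smul_comm, Finset.smul_sum]
        congr 1
        refine Finset.sum_congr rfl fun k _ => ?_
        rw [← smul_mul_assoc, ← mul_smul_comm]; rfl }
  obtain ⟨N, hN, hN2⟩ := markov (IsQ.frob Lm) (fun _ => frob_nonneg _)
    (b := 1 / (4 * m)) (by positivity)
  refine ⟨N, hN.mono ?_, fun U hU => ?_⟩
  · have a2 : ∀ c₀ e₀ a f, Lm (Pi.single (c₀, e₀) 1) a f =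
        lc b (fun l => (G * b l) a c₀) e₀ f := by
      intro c₀ e₀ a f
      change (G * ∑ k, b k *
        (Matrix.of fun a b => (Pi.single (c₀, e₀) 1 : D × D → ℝ) (a, b)) * b k) a f = _
      rw [hs_entry, Finset.sum_eq_single c₀, Finset.sum_eq_single e₀]
      · simp [lc, Finset.mul_sum, Matrix.sum_apply, mul_comm]
      · intro e _ he; simp [he]
      · simp
      · intro c' _ hc'; simp [hc']
      · simp
    have a1 : ∑ q, frob (Lm (Pi.single q 1)) ≤ ω * ∑ l, frob (G * b l) :=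
      calc _ = ∑ c₀, ∑ a, frob (lc b fun l => (G * b l) a c₀) := by
            simp only [Fintype.sum_prod_type, frob, a2]
            exact Finset.sum_congr rfl fun _ _ => Finset.sum_comm
        _ ≤ ∑ c₀, ∑ a, ω * ∑ l, (G * b l) a c₀ ^ 2 :=
            Finset.sum_le_sum fun _ _ => Finset.sum_le_sum fun _ _ =>
              (hω _).trans_eq (by rw [dot_eq_sq])
        _ = _ := by
            simp only [← Finset.mul_sum, frob]
            rw [Finset.sum_comm, Finset.sum_comm (γ := L)]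
            congr 1
            exact Finset.sum_congr rfl fun _ _ => Finset.sum_comm
    rw [div_div_eq_mul_div, div_one, mul_comm]
    exact mul_le_mul_of_nonneg_left a1 (by positivity)
  · have b2 : frob (G * ∑ l, b l * U * b l) ≤ frob (G * U) / 4 := by
      have a1 := hN2 _ hU
      rw [dot_eq_sq, Fintype.sum_prod_type] at a1
      refine le_trans a1 ((mul_le_mul_of_nonneg_left (hlow U) (by positivity)).trans
        (le_of_eq ?_))
      field_simp
    have b4 := frob_add_le (G * (U - ∑ l, b l * U * b l)) (G * ∑ l, b l * U * b l)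
    rw [← mul_add, sub_add_cancel] at b4
    linarith

omit [DecidableEq D] [DecidableEq L] in
lemma cross (M N : Matrix D D ℝ) {a g β : ℝ} (hg : 0 ≤ g) (hβ : 0 ≤ β) (h : a ^ 2 ≤ 4 * g * β) :
    -(a * (Mᵀ * N).trace) ≤ β * frob M / 2 + 2 * (g * frob N) := by
  have h1 : (Mᵀ * N).trace ^ 2 ≤ frob M * frob N := by
    have := Finset.sum_mul_sq_le_sq_mul_sq Finset.univ (fun q : D × D => M q.1 q.2)
      fun q => N q.1 q.2
    simp only [Fintype.sum_prod_type] at this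
    refine le_of_eq_of_le ?_ this
    simp only [trace, diag_apply, mul_apply, transpose_apply]
    rw [Finset.sum_comm]
  have h2 := frob_nonneg M
  have h3 := frob_nonneg N
  refine (neg_le_abs _).trans (abs_le_of_sq_le_sq ?_ (by positivity))
  rw [mul_pow]
  refine (mul_le_mul h h1 (sq_nonneg _) (by positivity)).trans ?_
  nlinarith [sq_nonneg (β * frob M / 2 - 2 * (g * frob N))]

end COREx

open COREx in
theorem p_CORE : S_CORE := by
  intro D I L K _ _ _ _ _ _ _ B b ζ x w p c s Λ lam ω α h hB hb hp hc hs0 hs1 hΛ hω0 hx hw hlow hω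
  have hζ : ∀ k e, 0 < ζ k e := fun k e => by linarith [hlow k e]
  have hp' : (1 : ℝ) ≤ p := by exact_mod_cast hp
  have hg : ∀ l, 0 ≤ c * s * w x l := fun l => mul_nonneg (mul_nonneg hc hs0) (hw l)
  choose G hρ hsolve using exists_G h hb hζ hp hx hs0 hs1 hg
  have hfo := fun U => fo_obj (U := U) h hζ hp hx hs0 hs1 zero_le_one
  have hsec := fun y a β hc U V => second (y := y) (a := a) (β := β) (U := U) (V := V)
    h hζ hp hs0 hs1 hc
  clear h
  obtain ⟨g, hgd⟩ : ∃ g : L → ℝ, ∀ l, c * s * w x l = g l := ⟨_, fun _ => rfl⟩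
  simp only [hgd] at hg hρ hsolve hfo hsec hω ⊢
  have hadj : ∀ k U, p * (diagonal (ζ k) ^ p * U).trace =
      ((G k)ᵀ * G k * (U - TW (b k) g U)).trace := by
    intro k U
    have := hρ k
    rw [TW_eq_TT _ hg] at this ⊢
    rw [mul_sub, trace_sub, ← TT_adj, ← trace_sub, ← sub_mul, this, smul_mul_assoc, trace_smul,
      smul_eq_mul]
  have hT1 : ∀ k (a : L → ℝ), ((G k)ᵀ * G k * TW (b k) a 1).trace =
      ∑ l, a l * frob (G k * b k l) := fun k a => by
    rw [TW, Finset.mul_sum, trace_sum]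
    refine Finset.sum_congr rfl fun l _ => ?_
    rw [mul_one, mul_smul_comm, trace_smul, trace_sq_eq (hb k l), smul_eq_mul]
  have hκ : ∑ k, ∑ l, g l * frob (G k * b k l) ≤ Λ := by
    refine le_trans ?_ (mul_le_of_le_one_right hΛ hs1)
    refine le_of_eps (t := ∑ k, ((G k)ᵀ * G k).trace) fun ε hε => ?_
    choose U hU hU2 using fun k => hsolve k (ε • 1 - TW (b k) g 1) (by
      rw [transpose_sub, transpose_smul, transpose_one, TW_symm _ (hb k) transpose_one])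
    have := hfo U hU fun k => fo_feas (b := b k) (g := g) (U := U k) (δ := 1) (by
      rw [hU2]
      convert (PD_one (D := D)).smul hε using 1
      module)
    simp only [hadj, hU2, mul_sub, trace_sub, mul_smul_comm, trace_smul, smul_eq_mul, mul_one, hT1,
      Finset.sum_sub_distrib, ← Finset.mul_sum] at this
    linarith
  have hρ0 : ∀ k u, 0 ≤ qf ((G k)ᵀ * G k) u := fun k u => by
    have := qf_conj 1 (G k) u
    rw [mul_one, qf_one] at this
    rw [this]; exact dot_nonneg _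
  have hT0 : ∀ k u, 0 ≤ qf (TW (b k) g ((G k)ᵀ * G k)) u := fun k => by
    rw [TW_eq_TT _ hg]; exact TT_nonneg (hb k) _ (hρ0 k)
  have hlowρ : ∀ k (U : Matrix D D ℝ), frob U ≤ 2 ^ p * frob (G k * U) := by
    intro k U
    rw [frob_mul, ← frob_transpose, frob, Finset.mul_sum]
    refine Finset.sum_le_sum fun j _ => ?_
    have a := hT0 k fun i => U i j
    have b : qf ((G k)ᵀ * G k) (fun i => U i j) - qf (TW (b k) g ((G k)ᵀ * G k)) (fun i => U i j) =
        p * ∑ e, ζ k e ^ p * U e j ^ 2 := by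
      rw [← qf_sub, hρ, qf_smul, diagonal_pow, qf_diagonal]; rfl
    have a2 : 0 ≤ ∑ e, ζ k e ^ p * U e j ^ 2 :=
      Finset.sum_nonneg fun e _ => mul_nonneg (pow_nonneg (hζ k e).le p) (sq_nonneg _)
    calc ∑ e, Uᵀ j e ^ 2 ≤ ∑ e, (2 * ζ k e) ^ p * U e j ^ 2 :=
          Finset.sum_le_sum fun e _ => le_mul_of_one_le_left (sq_nonneg _) (one_le_pow₀ (hlow k e))
      _ = 2 ^ p * ∑ e, ζ k e ^ p * U e j ^ 2 := by
          rw [Finset.mul_sum]
          exact Finset.sum_congr rfl fun e _ => by ring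
      _ ≤ _ := mul_le_mul_of_nonneg_left (by nlinarith) (by positivity)
  have hsq : ∀ (l : L) (M : Matrix D D ℝ), frob (√(g l) • M) = g l * frob M := fun l M => by
    rw [frob_smul, Real.sq_sqrt (hg l)]
  choose N hN hN2 using fun k => block (b := fun l => √(g l) • b k l) (G := G k)
    (by positivity : (0 : ℝ) < 2 ^ p) (hlowρ k) (hω k)
  choose Us hUs hUs2 using fun k i => hsolve k (B k i - TW (b k) (α i) 1) (by
    rw [transpose_sub, hB, TW_symm _ (hb k) transpose_one])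
  let S : K → (I → ℝ) →ₗ[ℝ] (D × D → ℝ) := fun k =>
    { toFun := fun y q => lc (Us k) y q.1 q.2
      map_add' := fun y y' => by funext q; rw [lc_add]; rfl
      map_smul' := fun a y => by funext q; rw [lc_smul]; rfl }
  obtain ⟨M, hM, hM2⟩ := cod_iInf (fun k => (N k).comap (S k)) _ fun k => (hN k).comap _
  refine ⟨G, ?_, M, hM.mono ?_, fun y hy β hβ ha hev => ?_⟩
  · simp only [Finset.mul_sum]
    rwa [Finset.sum_comm]
  · simp only [mul_smul_comm, hsq, ← Finset.mul_sum]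
    rw [mul_assoc _ ω]
    gcongr
  have hU : ∀ k, (lc (Us k) y)ᵀ = lc (Us k) y := fun k => lc_symm (hUs k) y
  have hU2 : ∀ k, lc (Us k) y - TW (b k) g (lc (Us k) y) =
      lc (B k) y - TW (b k) (y ᵥ* α) 1 := by
    intro k
    rw [TW_vecMul, TW_lc, lc, lc, ← Finset.sum_sub_distrib, ← Finset.sum_sub_distrib]
    exact Finset.sum_congr rfl fun i _ => by rw [← smul_sub, hUs2, smul_sub]
  have hbb := fun k => hN2 k (lc (Us k) y) (hM2 y hy k)
  simp only [smul_mul_assoc, mul_smul_comm, smul_smul, Real.mul_self_sqrt (hg _)] at hbb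
  change ∀ k, _ ≤ 4 * frob (G k * (_ - TW (b k) g _)) at hbb
  simp only [hU2] at hbb
  obtain ⟨U, hUd⟩ : ∃ U : K → Matrix D D ℝ, ∀ k, lc (Us k) y = U k := ⟨_, fun _ => rfl⟩
  simp only [hUd] at hU hU2 hbb
  generalize y ᵥ* α = a at *
  refine le_of_eps (t := ∑ k, ((G k)ᵀ * G k).trace) fun ε hε => ?_
  choose V hV hV2 using fun k => hsolve k (U k * U k - TW (b k) a (U k) - TW (b k) β 1 + ε • 1) (by
    rw [transpose_add, transpose_sub, transpose_sub, TW_symm _ (hb k) transpose_one,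
      TW_symm _ (hb k) (hU k), transpose_smul, transpose_one, transpose_mul, hU])
  have a0 := hsec y a β hev U V hU hV hU2 fun k => by
    rw [hV2]
    convert (PD_one (D := D)).smul hε using 1
    abel
  have a1 : ∀ k, ((p : ℝ) - 1) / 2 * (p * (diagonal (ζ k) ^ p * (U k * U k)).trace) +
      p * (diagonal (ζ k) ^ p * V k).trace ≤
      12 * p * frob (G k * (lc (B k) y - TW (b k) a 1)) -
      ∑ l, β l * frob (G k * b k l) / 2 + ε * ((G k)ᵀ * G k).trace := by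
    intro k
    have b7 : p * (diagonal (ζ k) ^ p * (U k * U k)).trace ≤ frob (G k * U k) := by
      have a2 : 0 ≤ (TW (b k) g ((G k)ᵀ * G k) * (U k * U k)).trace := by
        rw [← mul_assoc, trace_mul_comm, ← mul_assoc]
        nth_rewrite 1 [← hU k]
        rw [trace_conj]
        exact Finset.sum_nonneg fun j _ => hT0 k _
      rw [← smul_eq_mul, ← trace_smul, ← smul_mul_assoc, ← hρ, sub_mul, trace_sub,
        trace_sq_eq (hU k)]
      linarith
    have b8 : ∑ l, g l * frob (G k * (b k l * U k)) ≤ frob (G k * U k) := by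
      have a2 := sum_frob_TT (Γ := diagonal fun l => √(g l)) (hb k) (G k) (U k)
      rw [← TW_eq_TT _ hg] at a2
      simp only [lc_diag, smul_mul_assoc, mul_smul_comm, hsq] at a2
      rw [a2, frob_mul]
      refine Finset.sum_le_sum fun j _ => sub_nonneg.1 ?_
      rw [← qf_sub, hρ, diagonal_pow]
      exact ((PD_diagonal fun e => pow_pos (hζ k e) _).smul (by linarith)).nonneg _
    have c1 : -((G k)ᵀ * G k * TW (b k) a (U k)).trace ≤
        ∑ l, β l * frob (G k * b k l) / 2 + 2 * frob (G k * U k) := by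
      refine le_trans ?_ (add_le_add_right (mul_le_mul_of_nonneg_left b8 zero_le_two) _)
      rw [TW, Finset.mul_sum, trace_sum, Finset.mul_sum, ← Finset.sum_neg_distrib,
        ← Finset.sum_add_distrib]
      refine Finset.sum_le_sum fun l _ => ?_
      have a3 : ((G k)ᵀ * G k * (b k l * U k * b k l)).trace =
          ((G k * b k l)ᵀ * (G k * (b k l * U k))).trace := by
        rw [transpose_mul, hb, ← mul_assoc, trace_mul_comm]
        simp only [mul_assoc]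
      rw [mul_smul_comm, trace_smul, a3]
      exact cross _ _ (hg l) (hβ l) (ha l)
    rw [hadj k (V k), hV2, mul_add, mul_sub, mul_sub, trace_add, trace_sub, trace_sub, hT1,
      trace_sq_eq (hU k), mul_smul_comm, mul_one, trace_smul, smul_eq_mul]
    have b9 := mul_le_mul_of_nonneg_left b7 (by linarith : (0 : ℝ) ≤ ((p : ℝ) - 1) / 2)
    have b10 := mul_le_mul_of_nonneg_left (hbb k) (by linarith : (0 : ℝ) ≤ 3 * (p : ℝ))
    have b11 := mul_nonneg (sub_nonneg.2 hp') (frob_nonneg (G k * U k))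
    rw [← Finset.sum_div] at c1 ⊢
    linarith
  have a2 := a0.trans (Finset.sum_le_sum fun k _ => a1 k)
  rw [Finset.sum_add_distrib, Finset.sum_sub_distrib, ← Finset.mul_sum, ← Finset.mul_sum,
    Finset.sum_comm] at a2
  simp only [← Finset.mul_sum, ← Finset.sum_div] at a2 ⊢
  linarith

end Pool.Agent.P.MP_1157dd_an.K

/-! Existence of the optimiser. -/

namespace Pool.Agent.P.MP_1157dd_an.K

open Matrix Filter Topology N
open scoped ENNReal

namespace OPTx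

variable {D I J K L : Type} [Fintype D] [DecidableEq D] [Fintype I] [DecidableEq I] [Fintype J]
  [Fintype K] [Fintype L]

omit [DecidableEq D] in
lemma qf_TW {b : L → Matrix D D ℝ} (hb : ∀ l, (b l)ᵀ = b l) (g : L → ℝ) (U : Matrix D D ℝ)
    (u : D → ℝ) : qf (TW b g U) u = ∑ l, g l * qf U (b l *ᵥ u) := by
  rw [TW, qf_sum]
  refine Finset.sum_congr rfl fun l _ => ?_
  rw [qf_smul]
  nth_rewrite 1 [← hb l]
  rw [qf_conj]

omit [Fintype D] [DecidableEq D] [DecidableEq I] [Fintype L] in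
lemma cs {A : I → Matrix D D ℝ} (hA : ∀ i, (A i)ᵀ = A i) (Γ : Matrix I L ℝ) (l : L) :
    (cols A Γ l)ᵀ = cols A Γ l := lc_symm hA _

omit [DecidableEq D] [DecidableEq I] in
lemma TW_conj (A : I → Matrix D D ℝ) (Y U : Matrix D D ℝ) (Γ : Matrix I L ℝ) (g : L → ℝ) :
    TW (cols (fun i => Yᵀ * A i * Y) Γ) g U = Yᵀ * TW (cols A Γ) g (Y * U * Yᵀ) * Y := by
  simp only [TW, cols, lc_conj]
  simp only [Finset.mul_sum, Finset.sum_mul, mul_assoc, mul_smul_comm, smul_mul_assoc]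

lemma TW_gam {A : I → Matrix D D ℝ} (hA : ∀ i, (A i)ᵀ = A i) (C : Matrix J I ℝ)
    (M : Matrix I J ℝ) (x : I → ℝ) (a : ℝ) (Y : Matrix D D ℝ) (u : D → ℝ) :
    qf (TW (cols A (th C M)) (fun l => a * wf J x l) (Y * Yᵀ)) u =
      a * ∑ l, Yᵀ *ᵥ cols A (gam C M x) l *ᵥ u ⬝ᵥ Yᵀ *ᵥ cols A (gam C M x) l *ᵥ u := by
  rw [qf_TW (cs hA _), Finset.mul_sum]
  refine Finset.sum_congr rfl fun l _ => ?_
  have e : cols A (gam C M x) l = √(wf J x l) • cols A (th C M) l := by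
    rw [cols, cols, ← lc_smul]
    exact congrArg _ (funext fun i => mul_comm _ _)
  have e' := qf_conj 1 Yᵀ (cols A (th C M) l *ᵥ u)
  rw [transpose_transpose, mul_one, qf_one] at e'
  rw [e, smul_mulVec, mulVec_smul, smul_dotProduct, dotProduct_smul, smul_smul,
    Real.mul_self_sqrt (wf_nonneg x l), smul_eq_mul, mul_assoc]
  exact congrArg (a * ·) (congrArg (wf J x l * ·) e')

omit [DecidableEq D] [DecidableEq I] in
lemma cols_sum (A : I → Matrix D D ℝ) (Γ : Matrix I L ℝ) (Y : Matrix D D ℝ) (u : D → ℝ) :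
    ∑ l, Y *ᵥ cols A Γ l *ᵥ u ⬝ᵥ Y *ᵥ cols A Γ l *ᵥ u =
      ∑ e, (Γᵀ *ᵥ fun i => (Y *ᵥ A i *ᵥ u) e) ⬝ᵥ Γᵀ *ᵥ fun i => (Y *ᵥ A i *ᵥ u) e := by
  simp only [dot_eq_sq]
  rw [Finset.sum_comm]
  refine Finset.sum_congr rfl fun e _ => Finset.sum_congr rfl fun l _ => congrArg (· ^ 2) ?_
  simp only [cols, lc, sum_mulVec, mulVec_sum, smul_mulVec, mulVec_smul, Finset.sum_apply,
    Pi.smul_apply, smul_eq_mul]
  rfl

omit [DecidableEq I] in
lemma facts {A : I → Matrix D D ℝ} {y : I → ℝ} {b : L → Matrix D D ℝ} {g : L → ℝ}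
    {Z : Matrix D D ℝ} (hs : Zᵀ = Z)
    (h4 : ∀ u v, 2 * (u ⬝ᵥ v) ≤ qf (1 - lc A y - TW b g Z) u + qf Z v) (hA : Bal A)
    (hb : ∀ l, (b l)ᵀ = b l) (hg : ∀ l, 0 ≤ g l) :
    (∀ u, 0 ≤ qf Z u) ∧ (∀ u, qf (lc A y) u ≤ u ⬝ᵥ u) ∧
    ∃ (Y H : Matrix D D ℝ) (ζ : D → ℝ), Yᵀ * Y = diagonal ζ ∧ Y * Yᵀ = Z ∧ Y * H = 1 ∧ H * Y = 1 ∧
      ∀ e, 1 ≤ 2 * ζ e := by
  have a1 : ∀ u, 0 ≤ qf Z u := fun u => by simpa [qf] using h4 0 u
  have a3 : ∀ u, 0 ≤ qf (TW b g Z) u := fun u => by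
    rw [qf_TW hb]
    exact Finset.sum_nonneg fun l _ => mul_nonneg (hg l) (a1 _)
  simp only [qf_sub, qf_one] at h4
  have a4 : ∀ u, qf (lc A y) u ≤ 1 * (u ⬝ᵥ u) := fun u => by
    have := h4 u 0
    rw [dotProduct_zero, show qf Z 0 = 0 by simp [qf]] at this
    linarith [a3 u]
  have a5 := hA.2.2 _ _ a4
  have hPD : PD Z := by
    refine ⟨1 / 2, by norm_num, fun v => ?_⟩
    have c1 := h4 ((1 / 2 : ℝ) • v) v
    have c3 := a5 ((1 / 2 : ℝ) • v)
    simp only [smul_dotProduct, dotProduct_smul, smul_eq_mul] at c1 c3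
    linarith [a3 ((1 / 2 : ℝ) • v)]
  obtain ⟨Y, H, ζ, -, h1, h2, h3, h5⟩ := spec_pos hs hPD
  refine ⟨a1, fun u => by linarith [a4 u], Y, H, ζ, h1, h2, h3, h5, fun e => ?_⟩
  have hYe : Y *ᵥ Pi.single e 1 ⬝ᵥ Y *ᵥ Pi.single e 1 = ζ e := by
    rw [← qf_one, ← qf_conj, mul_one, h1, qf_single, diagonal_apply_eq]
  have c1 := h4 (Y *ᵥ Pi.single e 1) (Hᵀ *ᵥ Pi.single e 1)
  have c3 : Yᵀ *ᵥ Hᵀ *ᵥ Pi.single e (1 : ℝ) = Pi.single e 1 := by
    rw [mulVec_mulVec, ← transpose_mul, h5, transpose_one, one_mulVec]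
  have c4 := qf_conj 1 Yᵀ (Hᵀ *ᵥ Pi.single e 1)
  rw [transpose_transpose, mul_one, h2, c3, qf_single, one_apply_eq] at c4
  have c5 : Y *ᵥ Pi.single e 1 ⬝ᵥ Hᵀ *ᵥ Pi.single e (1 : ℝ) = 1 := by
    rw [← vecMul_transpose, ← dotProduct_mulVec, c3]; simp
  linarith [a3 (Y *ᵥ Pi.single e 1), a5 (Y *ᵥ Pi.single e 1)]

/-- the variables -/
abbrev Pq (I J D K : Type) : Type := (I → ℝ) × Matrix I J ℝ × ℝ × (K → Matrix D D ℝ)

/-- the feasible set -/
def Fe (A : K → I → Matrix D D ℝ) (C : Matrix J I ℝ) (x₀ : I → ℝ) (c : ℝ) (q : Pq I J D K) :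
    Prop :=
  Cube q.1 ∧ (∀ i l, |q.2.1 i l| ≤ 1) ∧ 0 ≤ q.2.2.1 ∧ q.2.2.1 ≤ 1 ∧ ∀ k,
    (q.2.2.2 k)ᵀ = q.2.2.2 k ∧ ∀ u v, 2 * (u ⬝ᵥ v) ≤ qf (1 - lc (A k) (q.1 - x₀) -
      TW (cols (A k) (th C q.2.1)) (fun l => c * q.2.2.1 * wf J q.1 l) (q.2.2.2 k)) u +
        qf (q.2.2.2 k) v

/-- the objective -/
def ob (p : ℕ) (E lam : ℝ) (q : Pq I J D K) : ℝ :=
  ∑ k, (q.2.2.2 k ^ p).trace - 4 * E * q.2.2.1 - lam * ∑ i, q.1 i ^ 2

omit [Fintype I] in
@[fun_prop]
lemma cont_th (C : Matrix J I ℝ) : Continuous (th C) :=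
  continuous_matrix fun i l => by
    rcases l with l | l <;> simp only [th, fromCols_apply_inl, fromCols_apply_inr] <;> fun_prop

omit [Fintype I] [DecidableEq I] [Fintype J] in
@[fun_prop]
lemma cont_wf : Continuous (wf (I := I) J) :=
  continuous_pi fun l => by
    rcases l with l | l <;> simp only [wf, Sum.elim_inl, Sum.elim_inr, sq1] <;> fun_prop

omit [Fintype K] in
lemma closed (A : K → I → Matrix D D ℝ) (C : Matrix J I ℝ) (x₀ : I → ℝ) (c : ℝ) :
    IsClosed {q : Pq I J D K | Fe A C x₀ c q} := by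
  simp only [Fe, Cube, Set.ofPred_and, Set.ofPred_forall]
  refine (isClosed_iInter fun i => isClosed_le (by fun_prop) continuous_const).inter
    ((isClosed_iInter fun i => isClosed_iInter fun l =>
      isClosed_le (by fun_prop) continuous_const).inter
    ((isClosed_le continuous_const (by fun_prop)).inter
    ((isClosed_le (by fun_prop) continuous_const).inter
    (isClosed_iInter fun k => (isClosed_eq (by fun_prop) (by fun_prop)).inter
    (isClosed_iInter fun u => isClosed_iInter fun v => isClosed_le continuous_const ?_)))))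
  simp only [qf, TW, cols, lc]
  fun_prop

end OPTx

open OPTx in
theorem p_OPT (hPAR : S_PAR) : S_OPT := by
  intro D I J K _ _ _ _ _ _ A C x₀ M₀ p c E lam hA hx₀ hM₀ hp hc hv hE hE0 hlam hn
  have hf := fun (q : Pq I J D K) (hq : Fe A C x₀ c q) k =>
    facts (hq.2.2.2.2 k).1 (hq.2.2.2.2 k).2 (hA k) (cs (hA k).1 _) fun l =>
      mul_nonneg (mul_nonneg hc hq.2.2.1) (wf_nonneg q.1 l)
  have hb := fun (q : Pq I J D K) (hq : Fe A C x₀ c q) k =>
    psd_bounds (hq.2.2.2.2 k).1 (hf q hq k).1 hp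
  have hcont : Continuous (ob (I := I) (J := J) (D := D) (K := K) p E lam) := by
    unfold ob
    fun_prop
  have hlow : ∀ q, Fe A C x₀ c q → ob p E lam q ≤ -(3 * E) →
      ∑ k, (q.2.2.2 k ^ p).trace ≤ 4 * E * q.2.2.1 - 2 * E := fun q hq h => by
    have := mul_le_mul_of_nonneg_left (sum_sq_le hq.1) hlam
    unfold ob at h
    linarith
  have hone : ∀ q, Fe A C x₀ c q → ob p E lam q ≤ -(3 * E) → ∀ k,
      (q.2.2.2 k ^ p).trace ≤ 2 * E := fun q hq h k => by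
    have := Finset.single_le_sum (fun k _ => (hb q hq k).1) (Finset.mem_univ k)
    nlinarith [hlow q hq h, hq.2.2.2.1]
  have h0 : Fe A C x₀ c (x₀, M₀, 1, fun _ => (2 : ℝ) • 1) ∧
      ob p E lam ((x₀, M₀, 1, fun _ => (2 : ℝ) • 1) : Pq I J D K) ≤ -(3 * E) := by
    refine ⟨⟨hx₀, hM₀, zero_le_one, le_rfl, fun k => ⟨by simp, fun u v => ?_⟩⟩, ?_⟩
    · have e := TW_gam (hA k).1 C M₀ x₀ (c * 1) 1 u
      have e' := hv k u
      simp only [transpose_one, one_mulVec, qf_TW (cs (hA k).1 _), Matrix.one_mul,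
        qf_one] at e
      simp only [sub_self, lc_zero, sub_zero, qf_sub, qf_TW (cs (hA k).1 _), qf_smul,
        mul_left_comm _ (2 : ℝ), ← Finset.mul_sum, e, qf_one]
      have := dot_nonneg (u - (2 : ℝ) • v)
      simp only [sub_dotProduct, dotProduct_sub, smul_dotProduct, dotProduct_smul, smul_eq_mul,
        dotProduct_comm v u] at this
      unfold vr at e'
      linarith
    · have := mul_nonneg hlam (Finset.sum_nonneg fun i (_ : i ∈ Finset.univ) => sq_nonneg (x₀ i))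
      simp only [ob, smul_pow, one_pow, trace_smul, trace_one, smul_eq_mul, Finset.sum_const,
        Finset.card_univ, nsmul_eq_mul]
      linarith
  have hK : IsCompact ({q : Pq I J D K | Fe A C x₀ c q} ∩ {q | ob p E lam q ≤ -(3 * E)}) := by
    refine ((isCompact_univ_pi fun _ : I => isCompact_Icc (a := (-1 : ℝ)) (b := 1)).prod
      ((compact_box 1).prod ((isCompact_Icc (a := (0 : ℝ)) (b := 1)).prod
      (isCompact_univ_pi fun _ : K =>
        compact_box (1 + Fintype.card D * (1 + 2 * E) ^ 2))))).of_isClosed_subset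
      ((closed A C x₀ c).inter (isClosed_le hcont continuous_const)) ?_
    rintro q ⟨hq, hJ⟩
    refine ⟨fun i _ => abs_le.1 (hq.1 i), hq.2.1, ⟨hq.2.2.1, hq.2.2.2.1⟩, fun k _ i j =>
      ((hb q hq k).2 i j).trans ?_⟩
    have := (hb q hq k).1
    have := hone q hq hJ k
    gcongr
  obtain ⟨⟨x, M', s, Z⟩, ⟨hq', hJ⟩, hmin⟩ := hK.exists_isMinOn ⟨_, h0⟩ hcont.continuousOn
  obtain ⟨M, hM⟩ := hPAR I J C (sq1 x) (sq1_nonneg x)
  choose Y H ζ h1 h2 h3 h4 h5 using fun k => (hf _ hq' k).2.2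
  simp only at h2
  have hq : Fe A C x₀ c (x, M, s, Z) := by
    refine ⟨hq'.1, hM.gam.2.2.2.2, hq'.2.2.1, hq'.2.2.2.1, fun k =>
      ⟨(hq'.2.2.2.2 k).1, fun u v => ((hq'.2.2.2.2 k).2 u v).trans ?_⟩⟩
    simp only [qf_sub, ← h2, TW_gam (hA k).1, cols_sum]
    have := mul_le_mul_of_nonneg_left (Finset.sum_le_sum fun e (_ : e ∈ Finset.univ) =>
      hM.gam.2.2.1 M' fun i => ((Y k)ᵀ *ᵥ A k i *ᵥ u) e) (mul_nonneg hc hq'.2.2.1)
    linarith
  refine ⟨x, M, s, Y, ζ, hq.1, hM, ?_, hq.2.2.2.1, fun k => (hf _ hq k).2.1, h1, h5,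
    fun k e => le_trans ?_ (hone _ hq hJ k), fun y s' g' F a1 a2 a2' a6 a3 a4 a5 => ?_⟩
  · have := (Finset.sum_nonneg fun k _ => (hb _ hq k).1).trans (hlow _ hq hJ)
    simp only at this
    nlinarith
  · simp only [← h2]
    rw [trace_pow_comm, h1, diagonal_pow, trace_diagonal]
    exact Finset.single_le_sum (f := (ζ k) ^ p)
      (fun e _ => pow_nonneg (by linarith [h5 k e]) p) (Finset.mem_univ e)
  have hdot : ∀ k u v, Y k *ᵥ u ⬝ᵥ v = u ⬝ᵥ (Y k)ᵀ *ᵥ v := fun k u v => by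
    rw [dotProduct_mulVec u, vecMul_transpose]
  have hqf : ∀ k M v, qf (Y k * M * (Y k)ᵀ) v = qf M ((Y k)ᵀ *ᵥ v) := fun k M v => by
    rw [← qf_conj, transpose_transpose]
  have hF : Fe A C x₀ c (x + y, M, s', fun k => Y k * (1 + F k) * (Y k)ᵀ) := by
    refine ⟨a1, hq.2.1, a2, a2', fun k => ⟨?_, fun u v => ?_⟩⟩
    · simp only [transpose_mul, transpose_add, transpose_one, transpose_transpose, a3, mul_assoc]
    obtain ⟨u, rfl⟩ : ∃ u', u = Y k *ᵥ u' := ⟨H k *ᵥ u, by rw [mulVec_mulVec, h3, one_mulVec]⟩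
    have b1 := (hq.2.2.2.2 k).2 (Y k *ᵥ u) ((H k)ᵀ *ᵥ u)
    have b2 : (Y k)ᵀ *ᵥ (H k)ᵀ *ᵥ u = u := by
      rw [mulVec_mulVec, ← transpose_mul, h4, transpose_one, one_mulVec]
    have b3 := hqf k 1 ((H k)ᵀ *ᵥ u)
    rw [mul_one, b2, qf_one, h2] at b3
    simp only at b1 ⊢
    rw [hdot, b2, b3] at b1
    rw [hdot, hqf]
    refine (inv_bound (a3 k) (a4 k) u ((Y k)ᵀ *ᵥ v)).trans (add_le_add_left ?_ _)
    have b4 := a5 k u
    have b5 : qf (TW (cols (A k) (th C M)) (fun l => c * s' * wf J (x + y) l)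
        (Y k * (1 + F k) * (Y k)ᵀ)) (Y k *ᵥ u) ≤
        qf (TW (cols (A k) (th C M)) g' (Y k * (1 + F k) * (Y k)ᵀ)) (Y k *ᵥ u) := by
      rw [qf_TW (cs (hA k).1 _), qf_TW (cs (hA k).1 _)]
      refine Finset.sum_le_sum fun l _ => mul_le_mul_of_nonneg_right (a6 l) ?_
      rw [hqf]
      generalize (Y k)ᵀ *ᵥ _ = w
      have := a4 k w
      simp only [qf_add, qf_smul, qf_one] at this ⊢
      linarith [dot_nonneg w]
    rw [lc_conj, TW_conj, TW_conj, mul_one, h2] at b4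
    rw [add_sub_right_comm x y x₀, lc_add]
    simp only [iv, qf_add, qf_sub, qf_smul, qf_one, qf_conj] at b1 b4 ⊢
    linarith
  have : ob p E lam ((x, M', s, Z) : Pq I J D K) ≤
      ob p E lam ((x + y, M, s', fun k => Y k * (1 + F k) * (Y k)ᵀ) : Pq I J D K) :=
    (le_total _ _).elim (fun h => hmin ⟨hF, h⟩) fun h => le_trans hJ h
  simp only [ob, Pi.add_apply, ← h2] at this
  have e : ∀ k, ((diagonal (ζ k) * (1 + F k)) ^ p).trace - (diagonal (ζ k) ^ p).trace =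
      ((Y k * (1 + F k) * (Y k)ᵀ) ^ p).trace - ((Y k * (Y k)ᵀ) ^ p).trace := fun k => by
    rw [trace_pow_comm (Y k * (1 + F k)), ← mul_assoc, h1, trace_pow_comm (Y k), h1]
  simp only [e, Finset.sum_sub_distrib]
  linarith

end Pool.Agent.P.MP_1157dd_an.K

/-! Step KOM. -/

namespace Pool.Agent.P.MP_1157dd_an.K

open Matrix Filter Topology N
open scoped ENNReal

namespace KOMx

variable {D I J L K : Type} [Fintype D] [Fintype I] [Fintype J] [Fintype L] [Fintype K]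

omit [Fintype D] in
lemma lc_cols (B : I → Matrix D D ℝ) (Γ : Matrix I L ℝ) (v : L → ℝ) :
    lc (cols B Γ) v = lc B (Γ *ᵥ v) := by
  simp only [cols, lc, mulVec, dotProduct, Finset.sum_smul, Finset.smul_sum, smul_smul]
  rw [Finset.sum_comm]
  exact Finset.sum_congr rfl fun i _ => Finset.sum_congr rfl fun l _ => by rw [mul_comm]

lemma frob_right (M : Matrix D D ℝ) {Y : Matrix D D ℝ} {β : ℝ}
    (h : ∀ u, Yᵀ *ᵥ u ⬝ᵥ Yᵀ *ᵥ u ≤ β * (u ⬝ᵥ u)) : frob (M * Y) ≤ β * frob M := by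
  rw [frob, frob, Finset.mul_sum]
  refine Finset.sum_le_sum fun a _ => ?_
  have := h (M a)
  rw [dot_eq_sq, dot_eq_sq] at this
  refine le_trans (le_of_eq (Finset.sum_congr rfl fun e _ => ?_)) this
  rw [mulVec_transpose]
  rfl

lemma frob_conj [DecidableEq D] {Y : Matrix D D ℝ} {ζ : D → ℝ} {θ : ℝ} (hθ : 0 ≤ θ)
    (hY : Yᵀ * Y = diagonal ζ) (hζ : ∀ e, ζ e ≤ θ) (X : Matrix D D ℝ) :
    frob (Yᵀ * X * Y) ≤ θ ^ 2 * frob X := by
  have h1 : ∀ v, Y *ᵥ v ⬝ᵥ Y *ᵥ v ≤ θ * (v ⬝ᵥ v) := fun v => by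
    rw [← qf_one, ← qf_conj, mul_one, hY, qf_diagonal, dot_eq_sq, Finset.mul_sum]
    exact Finset.sum_le_sum fun e _ => mul_le_mul_of_nonneg_right (hζ e) (sq_nonneg _)
  have h2 := frob_right (Yᵀ * X) (tr_bound h1 hθ)
  have h3 := frob_right Xᵀ (tr_bound h1 hθ)
  rw [← frob_transpose (Xᵀ * Y), transpose_mul, transpose_transpose, frob_transpose] at h3
  nlinarith [mul_le_mul_of_nonneg_left h3 hθ]

lemma adj_bound {C : Matrix J I ℝ} {Γ : Matrix I L ℝ}
    (h : ∀ m, Γᵀ *ᵥ Cᵀ *ᵥ m ⬝ᵥ Γᵀ *ᵥ Cᵀ *ᵥ m ≤ m ⬝ᵥ m) (r : L → ℝ) :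
    C *ᵥ Γ *ᵥ r ⬝ᵥ C *ᵥ Γ *ᵥ r ≤ r ⬝ᵥ r := by
  refine le_of_sq_le_mul (dot_nonneg _) (dot_nonneg _) ?_
  have e : C *ᵥ Γ *ᵥ r ⬝ᵥ C *ᵥ Γ *ᵥ r = Γᵀ *ᵥ Cᵀ *ᵥ (C *ᵥ Γ *ᵥ r) ⬝ᵥ r := by
    rw [mulVec_transpose, mulVec_transpose, ← dotProduct_mulVec, ← dotProduct_mulVec]
  nth_rewrite 1 [e]
  refine (dot_sq_le _ _).trans ?_
  rw [mul_comm]
  exact mul_le_mul_of_nonneg_left (h _) (dot_nonneg _)

lemma col_bound {C : Matrix J I ℝ} (hC : ∀ j, ∑ l, C l j ^ 2 ≤ 1) (z : I → ℝ) :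
    C *ᵥ z ⬝ᵥ C *ᵥ z ≤ Fintype.card I * (z ⬝ᵥ z) := by
  have h1 : C *ᵥ z ⬝ᵥ C *ᵥ z ≤ (∑ l, ∑ j, C l j ^ 2) * (z ⬝ᵥ z) := by
    rw [dot_eq_sq, Finset.sum_mul]
    refine Finset.sum_le_sum fun a _ => (dot_sq_le (C a) z).trans (le_of_eq ?_)
    rw [dot_eq_sq (C a)]
  refine h1.trans (mul_le_mul_of_nonneg_right ?_ (dot_nonneg z))
  rw [Finset.sum_comm]
  simpa using Finset.sum_le_sum fun j (_ : j ∈ Finset.univ) => hC j

/-- the conditioning hypothesis of the determinant step -/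
lemma xi_bound [DecidableEq I] {C : Matrix J I ℝ} {M : Matrix I J ℝ} {w m : I → ℝ} {η : ℝ}
    (hC : ∀ j, ∑ l, C l j ^ 2 ≤ 1) (hM : ∀ i, ∑ l, M i l ^ 2 ≤ w i) (hw : ∀ i, w i ≤ 1)
    (hm : ∀ i, 0 ≤ m i) (hη : 0 < η) (hs : ∑ i, w i * m i ≤ (Fintype.card I + 1) / 4 * η)
    (z : I → ℝ) : ∑ j, (m j + η) * ((1 - M * C) *ᵥ z) j ^ 2 ≤
      3 * (Fintype.card I + 1) ^ 2 * ∑ j, (m j + η) * z j ^ 2 := by
  have h1 : ∀ j, ((1 - M * C) *ᵥ z) j ^ 2 ≤
      2 * z j ^ 2 + 2 * (w j * (Fintype.card I * (z ⬝ᵥ z))) := fun j => by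
    have a1 := dot_sq_le (M j) (C *ᵥ z)
    rw [dot_eq_sq (M j)] at a1
    have a2 := mul_le_mul (hM j) (col_bound hC z) (dot_nonneg _)
      ((Finset.sum_nonneg fun l _ => sq_nonneg _).trans (hM j))
    rw [sub_mulVec, one_mulVec, ← mulVec_mulVec, Pi.sub_apply]
    change (z j - M j ⬝ᵥ C *ᵥ z) ^ 2 ≤ _
    nlinarith [sq_nonneg (z j + M j ⬝ᵥ C *ᵥ z)]
  have h2 : η * (z ⬝ᵥ z) ≤ ∑ j, (m j + η) * z j ^ 2 := by
    rw [dot_eq_sq, Finset.mul_sum]
    exact Finset.sum_le_sum fun j _ => by nlinarith [mul_nonneg (hm j) (sq_nonneg (z j))]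
  have h3 : ∑ j, w j ≤ Fintype.card I := by
    simpa using Finset.sum_le_sum fun j (_ : j ∈ Finset.univ) => hw j
  have h4 : ∑ j, (m j + η) * ((1 - M * C) *ᵥ z) j ^ 2 ≤ 2 * ∑ j, (m j + η) * z j ^ 2 +
      2 * (Fintype.card I * (z ⬝ᵥ z)) * (∑ i, w i * m i + η * ∑ j, w j) := by
    rw [Finset.mul_sum, Finset.mul_sum, ← Finset.sum_add_distrib, Finset.mul_sum,
      ← Finset.sum_add_distrib]
    refine Finset.sum_le_sum fun j _ => ?_
    refine (mul_le_mul_of_nonneg_left (h1 j) (by linarith [hm j])).trans (le_of_eq ?_)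
    ring
  have h5 := dot_nonneg z
  have hn : (0 : ℝ) ≤ Fintype.card I := Nat.cast_nonneg _
  generalize (Fintype.card I : ℝ) = n at *
  generalize ∑ j, (m j + η) * z j ^ 2 = S at *
  have h6 : 2 * (n * (z ⬝ᵥ z)) * (∑ i, w i * m i + η * ∑ j, w j) ≤
      2 * (n * (z ⬝ᵥ z)) * (((n + 1) / 4 + n) * η) :=
    mul_le_mul_of_nonneg_left (by nlinarith [mul_le_mul_of_nonneg_left h3 hη.le]) (by positivity)
  have h7 : 2 * n * ((n + 1) / 4 + n) * (η * (z ⬝ᵥ z)) ≤ 2 * n * ((n + 1) / 4 + n) * S :=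
    mul_le_mul_of_nonneg_left h2 (by positivity)
  have h8 : 0 ≤ S := le_trans (by positivity) h2
  nlinarith [mul_nonneg hn h8, mul_nonneg (mul_nonneg hn hn) h8]

omit [Fintype I] in
lemma sq1_pos {x : I → ℝ} {j : I} (h : |x j| < 1) : 0 < sq1 x j :=
  Real.sqrt_pos.2 (by linarith [(sq_lt_one_iff_abs_lt_one _).2 h])

lemma sq1_zero {x : I → ℝ} (hx : Cube x) {j : I} (h : j ∉ free x) : sq1 x j = 0 := by
  have : |x j| = 1 := le_antisymm (hx j) (not_lt.1 fun e => h (mem_free.2 e))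
  rw [sq1, ← sq_abs, this]
  simp

theorem kom [DecidableEq D] [DecidableEq I] (hDET : S_DET) (hSQ : S_SQ) (hCORE : S_CORE)
    (hOPT : S_OPT) {A : K → I → Matrix D D ℝ} {C : Matrix J I ℝ} {x₀ : I → ℝ} {M₀ : Matrix I J ℝ}
    {κ θ ω R t : ℝ} (hA : ∀ k, Bal (A k)) (hC : ∀ j, ∑ l, C l j ^ 2 ≤ 1) (hx₀ : Cube x₀)
    (hM₀ : ∀ i l, |M₀ i l| ≤ 1)
    (hv : ∀ k u, 2 ^ 20 * vr (cols (A k) (gam C M₀ x₀)) u ≤ 1 / 4 * (u ⬝ᵥ u)) (hω : 0 ≤ ω)
    (hf : ∀ k y, 2 ^ 20 * frob (lc (A k) y) ≤ ω * (C *ᵥ y ⬝ᵥ C *ᵥ y))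
    (hκ : (Fintype.card K * Fintype.card D : ℝ) ≤ κ) (hκ1 : 1 ≤ κ) (hθ : 0 ≤ θ)
    (hθκ : 2 ^ 17 * κ ≤ θ ^ 16) (hR : 4 + Real.log (3 * (Fintype.card I + 1) ^ 2) ≤ R)
    (hR1 : 2 ^ 15 * R * θ ^ 2 * ω ≤ 1) (hR2 : 2 ^ 37 * R * θ ^ 2 * ω * κ ≤ t) :
    ∃ x, Cube x ∧ ((free x).card : ℝ) ≤ t ∧ ∀ k u, qf (lc (A k) (x - x₀)) u ≤ u ⬝ᵥ u := by
  classical
  have hn : (0 : ℝ) ≤ Fintype.card I := Nat.cast_nonneg _
  obtain ⟨η, hη⟩ : ∃ η : ℝ, η = 2 * κ / (Fintype.card I + 1) := ⟨_, rfl⟩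
  have hη0 : 0 < η := by rw [hη]; positivity
  have hη1 : η * (Fintype.card I + 1) = 2 * κ := by rw [hη]; field_simp
  obtain ⟨c, hc⟩ : ∃ c : ℝ, c = 2 ^ 20 := ⟨_, rfl⟩
  have hc0 : 0 < c := by rw [hc]; positivity
  rw [← hc] at hv hf
  obtain ⟨x, M, s, Y, ζ, hx, hP, hs1, hs2, hq, hY, hζ1, hζ2, hL⟩ :=
    hOPT D I J K A C x₀ M₀ 16 c (2 ^ 16 * κ) (2 ^ 15 * η) hA hx₀ hM₀ (by norm_num) hc0.le hv
      (by linarith) (by positivity) (by positivity) (by linarith)
  refine ⟨x, hx, ?_, hq⟩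
  by_contra hcon
  have hcon' := not_le.1 hcon
  have hs0 : 0 < s := by linarith
  have hcs : 0 < c * s := mul_pos hc0 hs0
  have hζθ : ∀ k e, ζ k e ≤ θ := fun k e =>
    le_of_pow_le_pow_left₀ (n := 16) (by norm_num) hθ (by linarith [hζ2 k e])
  obtain ⟨B, hB⟩ : ∃ B : K → I → Matrix D D ℝ, B = fun k i => (Y k)ᵀ * A k i * Y k := ⟨_, rfl⟩
  obtain ⟨b, hb⟩ : ∃ b : K → I ⊕ J → Matrix D D ℝ, b = fun k => cols (B k) (th C M) := ⟨_, rfl⟩
  have hL' : LocK B b ζ x (wf J) 16 c s (4 * (2 ^ 16 * κ)) (2 ^ 15 * η) := by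
    rw [hb, hB]; exact hL
  have hBs : ∀ k i, (B k i)ᵀ = B k i := fun k i => by
    simp only [hB, transpose_mul, transpose_transpose, (hA k).1, mul_assoc]
  have hbs : ∀ k l, (b k l)ᵀ = b k l := fun k l => by rw [hb]; exact lc_symm (hBs k) _
  obtain ⟨Ω, hΩ⟩ : ∃ Ω, Ω = θ ^ 2 * ω := ⟨_, rfl⟩
  have hΩ0 : 0 ≤ Ω := by rw [hΩ]; positivity
  have hom : ∀ k r, frob (lc (fun l => √(c * s * wf J x l) • b k l) r) ≤ Ω * (r ⬝ᵥ r) := by
    intro k r
    have e : lc (fun l => √(c * s * wf J x l) • b k l) r =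
        √(c * s) • ((Y k)ᵀ * lc (A k) (gam C M x *ᵥ r) * Y k) := by
      rw [← lc_conj, ← lc_cols, lc, lc, Finset.smul_sum]
      refine Finset.sum_congr rfl fun l _ => ?_
      rw [Real.sqrt_mul hcs.le, smul_comm (r l), mul_smul, smul_comm _ (r l)]
      simp only [hb, hB, cols, ← lc_smul]
      congr 3
      funext i
      simp [gam, mul_comm]
    rw [e, frob_smul, Real.sq_sqrt hcs.le]
    have a1 := mul_le_mul_of_nonneg_left (frob_conj hθ (hY k) (hζθ k) (lc (A k) (gam C M x *ᵥ r)))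
      hcs.le
    have a2 := (hf k (gam C M x *ᵥ r)).trans
      (mul_le_mul_of_nonneg_left (adj_bound hP.gam.2.1 r) hω)
    have a3 := mul_le_mul_of_nonneg_left a2 (sq_nonneg θ)
    have a4 : 0 ≤ θ ^ 2 * (c * frob (lc (A k) (gam C M x *ᵥ r))) :=
      mul_nonneg (sq_nonneg θ) (mul_nonneg hc0.le (frob_nonneg _))
    rw [hΩ]
    nlinarith
  obtain ⟨α, hα⟩ : ∃ α : Matrix I (I ⊕ J) ℝ,
      α = fromCols (diagonal fun j => c * s * (x j / sq1 x j)) 0 := ⟨_, rfl⟩
  have hα1 : ∀ y : I → ℝ, y ᵥ* α =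
      Sum.elim (fun j => y j * (c * s * (x j / sq1 x j))) fun _ => 0 := fun y => by
    rw [hα, vecMul_fromCols, vecMul_zero]
    congr 1
    funext j
    rw [vecMul_diagonal]
  obtain ⟨G, h1, N₁, h2, h3⟩ := hCORE D I (I ⊕ J) K B b ζ x (wf J) 16 c s _ _ Ω α hL' hBs hbs
    (by norm_num) hc0.le hs0.le hs2 (by positivity) hΩ0 hx (wf_nonneg x) hζ1 hom
  obtain ⟨m, hm⟩ : ∃ m : I → ℝ, ∀ j, m j = ∑ k, frob (G k * b k (Sum.inl j)) := ⟨_, fun _ => rfl⟩
  have hm0 : ∀ j, 0 ≤ m j := fun j => hm j ▸ Finset.sum_nonneg fun k _ => frob_nonneg _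
  have hw0 := sq1_nonneg x
  have hwm : ∑ i, sq1 x i * m i ≤ (Fintype.card I + 1) / 4 * η := by
    rw [Fintype.sum_sum_type] at h1
    have a1 : 0 ≤ ∑ l : J, c * s * wf J x (Sum.inr l) * ∑ k, frob (G k * b k (Sum.inr l)) :=
      Finset.sum_nonneg fun l _ => mul_nonneg (mul_nonneg hcs.le (wf_nonneg x _))
        (Finset.sum_nonneg fun k _ => frob_nonneg _)
    simp only [← hm, wf, Sum.elim_inl, mul_assoc, ← Finset.mul_sum] at h1 a1
    have a2 : 0 ≤ ∑ i, sq1 x i * m i := Finset.sum_nonneg fun i _ => mul_nonneg (hw0 i) (hm0 i)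
    have a3 := mul_le_mul_of_nonneg_right hs1 a2
    rw [hc] at h1 a1
    linarith
  let L₁ : K → (I → ℝ) →ₗ[ℝ] Matrix D D ℝ := fun k =>
    { toFun := fun y => G k * lc (B k) y
      map_add' := fun y z => by rw [lc_add, mul_add]
      map_smul' := fun a y => by rw [lc_smul, mul_smul_comm]; rfl }
  let L₂ : K → (I → ℝ) →ₗ[ℝ] Matrix D D ℝ := fun k =>
    { toFun := fun y => G k * TW (b k) (y ᵥ* α) 1
      map_add' := fun y z => by
        simp only [TW, add_vecMul, Pi.add_apply, add_smul, Finset.sum_add_distrib, mul_add]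
      map_smul' := fun a y => by
        simp only [TW, smul_vecMul, Pi.smul_apply, smul_eq_mul, mul_smul, ← Finset.smul_sum,
          mul_smul_comm, RingHom.id_apply] }
  obtain ⟨H, hH1, hH2⟩ := (IsQ.sum fun k => IsQ.frob (L₁ k)).comp (1 - M * C)
  beta_reduce at hH2
  have hΞ : (1 : ℝ) ≤ 3 * (Fintype.card I + 1) ^ 2 := by nlinarith
  have hR0 : 0 < R := by linarith [Real.log_nonneg hΞ]
  obtain ⟨N₂, h4, h5⟩ := hDET I J C H (sq1 x) (fun j => m j + η) (free x) _ R hw0 (sq1_le x)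
    (fun j => sq1_zero hx) hC hH1
    (fun y => hH2 y ▸ Finset.sum_nonneg fun k _ => frob_nonneg _)
    (fun j => by linarith [hm0 j]) (fun j => by
      rw [← qf_single H, ← hH2, mulVec_single_one]
      have : ∑ k, frob (L₁ k ((1 - M * C).col j)) = m j := by rw [hm, hb]; rfl
      linarith) hΞ hR (fun y => by
      have := xi_bound hC hP.gam.2.2.2.1 (sq1_le x) hm0 hη0 hwm
        ((1 + diagonal (sq1 x) * (Cᵀ * C)) *ᵥ y)
      rwa [mulVec_mulVec, hP.1, one_mulVec] at this)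
  have ha0 : ∀ j, 0 < c * (m j / sq1 x j ^ 3) + η := fun j => by
    have := hm0 j
    have := hw0 j
    positivity
  obtain ⟨N₃, h6, h7⟩ := markov' (IsQ.sum fun k => IsQ.frob (L₂ k))
    (fun y => Finset.sum_nonneg fun k _ => frob_nonneg _) (b := 1 / 12288) (by norm_num) (free x)
    ha0
  have h8 : Cod N₃ (12288 * Ω * (free x).card) := by
    refine h6.mono ?_
    rw [div_le_iff₀ (by norm_num)]
    refine (Finset.sum_le_sum (g := fun _ => Ω) fun j hj => ?_).trans (le_of_eq ?_)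
    · have hw := sq1_pos (mem_free.1 hj)
      rw [div_le_iff₀ (ha0 j)]
      have a1 : ∀ k, frob (L₂ k (Pi.single j 1)) ≤
          Ω * (c / sq1 x j ^ 3) * frob (G k * b k (Sum.inl j)) := fun k => by
        have e : L₂ k (Pi.single j 1) = (c * s * (x j / sq1 x j)) •
            (G k * b k (Sum.inl j) * b k (Sum.inl j)) := by
          change G k * TW (b k) (Pi.single j 1 ᵥ* α) 1 = _
          rw [hα1, TW, Finset.sum_eq_single (Sum.inl j) _ (by simp)]
          · simp [mul_assoc]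
          · rintro (l | l) _ hl
            · simp [show l ≠ j from fun e => hl (e ▸ rfl)]
            · simp
        have a2 := frob_mul_le (G k * b k (Sum.inl j)) (hbs k _) (op_le_frob (b k (Sum.inl j)))
        have a3 := hom k (Pi.single (Sum.inl j) 1)
        rw [lc, Finset.sum_eq_single (Sum.inl j) (fun l _ hl => by simp [hl]) (by simp)] at a3
        simp only [Pi.single_eq_same, one_smul, single_dotProduct, mul_one, frob_smul] at a3
        rw [Real.sq_sqrt (mul_nonneg hcs.le (wf_nonneg x _))] at a3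
        change c * s * sq1 x j * _ ≤ _ at a3
        have a4 : x j ^ 2 ≤ 1 := (sq_le_one_iff_abs_le_one _).2 (hx j)
        have a5 := frob_nonneg (G k * b k (Sum.inl j))
        have a6 := frob_nonneg (b k (Sum.inl j))
        rw [e, frob_smul]
        calc _ ≤ (c * s * (x j / sq1 x j)) ^ 2 *
              (frob (b k (Sum.inl j)) * frob (G k * b k (Sum.inl j))) :=
              mul_le_mul_of_nonneg_left a2 (sq_nonneg _)
          _ = (c * s * sq1 x j * frob (b k (Sum.inl j))) * (s * x j ^ 2) *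
              (c / sq1 x j ^ 3 * frob (G k * b k (Sum.inl j))) := by field_simp
          _ ≤ Ω * 1 * (c / sq1 x j ^ 3 * frob (G k * b k (Sum.inl j))) := by
              gcongr
              exact mul_le_one₀ hs2 (sq_nonneg _) a4
          _ = _ := by ring
      refine (Finset.sum_le_sum fun k _ => a1 k).trans ?_
      rw [← Finset.mul_sum, ← hm]
      have : Ω * (c * (m j / sq1 x j ^ 3) + η) = Ω * (c / sq1 x j ^ 3) * m j + Ω * η := by ring
      rw [this]
      exact le_add_of_nonneg_right (mul_nonneg hΩ0 hη0.le)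
    · rw [Finset.sum_const, nsmul_eq_mul]
      ring
  obtain ⟨N₀, h9, h10⟩ := cod_supp (free x)
  obtain ⟨y, ⟨⟨y0, y2⟩, y3, y1⟩, hy⟩ := ((h9.inf h4).inf (h8.inf h2)).exists_ne (by
    obtain ⟨g, hg⟩ : ∃ g : ℝ, (free x).card = g * R := ⟨_, (div_mul_cancel₀ _ hR0.ne').symm⟩
    rw [hg, mul_div_cancel_right₀ _ hR0.ne']
    rw [hg] at hcon'
    have a1 : 2 ^ 37 * Ω * κ < g := lt_of_mul_lt_mul_right (a := R) (by rw [hΩ]; linarith) hR0.le
    have a2 : 0 ≤ Ω * κ := by positivity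
    have a3 : 2 ^ 15 * R * Ω * g ≤ 1 * g :=
      mul_le_mul_of_nonneg_right (by rw [hΩ]; linarith) (by linarith)
    linarith)
  have hyF := h10 y y0
  have b1 := h3 y y1 (Sum.elim (fun j => c * s * (y j ^ 2 / (4 * sq1 x j ^ 3))) fun _ => 0)
    (by
      rintro (j | l)
      · have := hw0 j
        simp only [Sum.elim_inl]
        positivity
      · exact le_rfl) (by
      rw [hα1]
      rintro (j | l)
      · simp only [Sum.elim_inl, wf]
        by_cases hj : j ∈ free x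
        · have hw := sq1_pos (mem_free.1 hj)
          have a4 : x j ^ 2 ≤ 1 := (sq_le_one_iff_abs_le_one _).2 (hx j)
          calc _ = (y j * (c * s) / sq1 x j) ^ 2 * x j ^ 2 := by ring
            _ ≤ (y j * (c * s) / sq1 x j) ^ 2 * 1 := by gcongr
            _ = _ := by field_simp
        · simp [hyF j hj]
      · simp) (by
      refine Eventually.and (eventually_all.2 fun i => ?_) (eventually_all.2 ?_)
      · by_cases hi : i ∈ free x
        · have hcont : Continuous fun t : ℝ => |(x + t • y) i| := by fun_prop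
          exact (hcont.continuousAt.eventually_lt continuousAt_const
            (by simpa using mem_free.1 hi)).mono fun t ht => ht.le
        · exact Eventually.of_forall fun t => by simpa [hyF i hi] using hx i
      · rw [hα1]
        rintro (j | l)
        · by_cases hj : j ∈ free x
          · filter_upwards [hSQ (x j) (y j) (mem_free.1 hj)] with t ht
            refine (mul_le_mul_of_nonneg_left ht hcs.le).trans (le_of_eq ?_)
            simp only [Sum.elim_inl, wf, sq1]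
            ring
          · exact Eventually.of_forall fun t => by simp [wf, sq1, hyF j hj]
        · exact Eventually.of_forall fun t => by simp [wf])
  have b2 := h5 y y2 hyF
  have b3 := h7 y y3 hyF
  rw [← hH2, mulVec_mulVec, hP.1, one_mulVec] at b2
  have b4 : ∑ k, frob (G k * (lc (B k) y - TW (b k) (y ᵥ* α) 1)) ≤
      2 * ∑ k, frob (L₁ k y) + 2 * ∑ k, frob (L₂ k y) := by
    rw [Finset.mul_sum, Finset.mul_sum, ← Finset.sum_add_distrib]
    refine Finset.sum_le_sum fun k _ => ?_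
    have a5 := frob_add_le (L₁ k y) ((-1 : ℝ) • L₂ k y)
    rw [frob_smul, neg_one_smul, ← sub_eq_add_neg] at a5
    rw [mul_sub]
    exact a5.trans (le_of_eq (by ring))
  have b5 : 0 < y ⬝ᵥ y :=
    lt_of_le_of_ne (dot_nonneg y) fun h0 => hy (dotProduct_self_eq_zero.1 h0.symm)
  obtain ⟨S, hS⟩ : ∃ S, S = ∑ j, m j / sq1 x j ^ 3 * y j ^ 2 := ⟨_, rfl⟩
  have b6 : ∑ j, m j * y j ^ 2 ≤ S := by
    rw [hS]
    refine Finset.sum_le_sum fun j _ => ?_
    by_cases hj : j ∈ free x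
    · have hw := sq1_pos (mem_free.1 hj)
      refine mul_le_mul_of_nonneg_right ?_ (sq_nonneg _)
      rw [le_div_iff₀ (by positivity)]
      exact mul_le_of_le_one_right (hm0 j) (pow_le_one₀ hw.le (sq1_le x j))
    · simp [hyF j hj]
  have b7 : 0 ≤ S := le_trans (Finset.sum_nonneg fun j _ => mul_nonneg (hm0 j) (sq_nonneg _)) b6
  have b8 : ∑ j, c * s * (y j ^ 2 / (4 * sq1 x j ^ 3)) * m j / 2 = c * (s * S) / 8 := by
    rw [hS, Finset.mul_sum, Finset.mul_sum, Finset.sum_div]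
    exact Finset.sum_congr rfl fun j _ => by ring
  simp only [Fintype.sum_sum_type, Sum.elim_inl, Sum.elim_inr, zero_mul, zero_div,
    Finset.sum_const_zero, add_zero, ← hm, b8] at b1
  simp only [add_mul, Finset.sum_add_distrib, mul_assoc, ← Finset.mul_sum, ← hS,
    ← dot_eq_sq] at b2 b3
  have b9 := mul_le_mul_of_nonneg_right hs1 b7
  have b10 := mul_pos hη0 b5
  rw [hc] at b1 b3
  push_cast at b1
  linarith

end KOMx

theorem p_KOM (hDET : S_DET) (hSQ : S_SQ) (hCORE : S_CORE) (hOPT : S_OPT) : S_KOM := by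
  intro D I J K _ _ _ _ _ _ A σ C x₀ M₀ κ θ ω R t hσ hC hx₀ hM₀ hV hω hF hκ hκ1 hθ hθκ hR hR1 hR2
  have e : ∀ k, (2 ^ 11 * σ k)⁻¹ ^ 2 * σ k ^ 2 = 1 / 2 ^ 22 := fun k => by
    have := hσ k
    field_simp
  obtain ⟨x, h1, h2, h3⟩ := KOMx.kom hDET hSQ hCORE hOPT
    (fun k => bal_dil (2 ^ 11 * σ k)⁻¹ (A k)) hC hx₀ hM₀ (fun k u => by
      have := vr_dil (2 ^ 11 * σ k)⁻¹ (hV k) u
      rw [e] at this
      have e' : cols (fun i => dil (2 ^ 11 * σ k)⁻¹ (A k i)) (gam C M₀ x₀) =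
          fun l => dil (2 ^ 11 * σ k)⁻¹ (cols (A k) (gam C M₀ x₀) l) :=
        funext fun l => lc_dil _ _ _
      rw [e']
      linarith) hω (fun k y => by
      have a1 := mul_le_mul_of_nonneg_left (hF k y) (sq_nonneg (2 ^ 11 * σ k)⁻¹)
      have a2 := mul_nonneg hω (dot_nonneg (C *ᵥ y))
      rw [lc_dil, frob_dil]
      rw [show (2 ^ 11 * σ k)⁻¹ ^ 2 * (ω * σ k ^ 2 * (C *ᵥ y ⬝ᵥ C *ᵥ y)) =
        (2 ^ 11 * σ k)⁻¹ ^ 2 * σ k ^ 2 * (ω * (C *ᵥ y ⬝ᵥ C *ᵥ y)) by ring, e] at a1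
      linarith) (by
      rw [Fintype.card_sum]
      push_cast
      linarith) hκ1 hθ hθκ hR hR1 hR2
  refine ⟨x, h1, h2, fun k => op_of_dil ?_ fun u => by simpa only [lc_dil] using h3 k u⟩
  have := hσ k
  positivity

end Pool.Agent.P.MP_1157dd_an.K
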